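import Pool.Agent.H633R2.CtrDefs

/-!
# Graphs given by a list of codes and a relation
-/

set_option autoImplicit false

namespace Q224.RD

open Pool.Agent.H633R2

variable {C : Type}

/-- The matrix of a relation on a list of codes. -/
def mtxOf (l : List C) (rel : C → C → Bool) : List (List Bool) :=
  l.map fun d => l.map fun e => rel d e

theorem mtxOf_length (l : List C) (rel : C → C → Bool) : (mtxOf l rel).length = l.length := by
  simp [mtxOf]

/-- The code of a vertex. -/
def phi (l : List C) (rel : C → C → Bool) (i : Fin (mtxOf l rel).length) : C :=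
  l[(i : ℕ)]'(i.2.trans_eq (mtxOf_length l rel))

theorem entry_nat (l : List C) (rel : C → C → Bool) {i j : ℕ} (hi : i < l.length)
    (hj : j < l.length) : entry (mtxOf l rel) i j = rel l[i] l[j] := by
  unfold entry mtxOf
  rw [List.getD_eq_getElem (l.map (fun d => l.map (fun e => rel d e))) []
    (by rw [List.length_map]; exact hi), List.getElem_map,
    List.getD_eq_getElem _ _ (by rw [List.length_map]; exact hj), List.getElem_map]

theorem entry_mtxOf (l : List C) (rel : C → C → Bool) (i j : Fin (mtxOf l rel).length) :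
    entry (mtxOf l rel) i j = rel (phi l rel i) (phi l rel j) :=
  entry_nat l rel (i.2.trans_eq (mtxOf_length l rel)) (j.2.trans_eq (mtxOf_length l rel))

theorem adj_mtxOf (l : List C) (rel : C → C → Bool) (i j : Fin (mtxOf l rel).length) :
    (graphOf (mtxOf l rel)).Adj i j ↔ i ≠ j ∧ (rel (phi l rel i) (phi l rel j) = true ∨
      rel (phi l rel j) (phi l rel i) = true) := by
  rw [← entry_mtxOf l rel, ← entry_mtxOf l rel]
  rfl

theorem phi_inj {l : List C} (hl : l.Nodup) (rel : C → C → Bool) :
    Function.Injective (phi l rel) := fun _ _ h => Fin.ext (hl.getElem_inj_iff.1 h)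

theorem phi_mem (l : List C) (rel : C → C → Bool) (i : Fin (mtxOf l rel).length) :
    phi l rel i ∈ l := List.getElem_mem _

theorem phi_surj {l : List C} (rel : C → C → Bool) {d : C} (hd : d ∈ l) :
    ∃ i, phi l rel i = d := by
  obtain ⟨i, hi, h⟩ := List.getElem_of_mem hd
  exact ⟨⟨i, by rw [mtxOf_length]; exact hi⟩, h⟩

theorem hasDomSet_mtxOf {l : List C} (hl : l.Nodup) (rel : C → C → Bool) (m : ℕ) :
    HasDomSet (mtxOf l rel, m) ↔ ∃ T : List C, T.length ≤ m ∧ (∀ t ∈ T, t ∈ l) ∧
      ∀ v ∈ l, ∃ t ∈ T, t = v ∨ rel t v = true ∨ rel v t = true := by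
  classical
  constructor
  · rintro ⟨S, hS, hd⟩
    refine ⟨S.toList.map (phi l rel), ?_, ?_, ?_⟩
    · rw [List.length_map, Finset.length_toList]
      exact hS
    · intro t ht
      rw [List.mem_map] at ht
      obtain ⟨i, -, rfl⟩ := ht
      exact phi_mem l rel i
    · intro v hv
      obtain ⟨i, rfl⟩ := phi_surj rel hv
      obtain ⟨j, hj, h⟩ := hd i
      refine ⟨phi l rel j, List.mem_map_of_mem (Finset.mem_toList.mpr hj), ?_⟩
      rcases h with rfl | h
      · exact Or.inl rfl
      · exact Or.inr ((adj_mtxOf l rel j i).mp h).2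
  · rintro ⟨T, hT, hTl, hd⟩
    refine ⟨Finset.univ.filter fun i => phi l rel i ∈ T, ?_, fun w => ?_⟩
    · refine le_trans ?_ (T.toFinset_card_le.trans hT)
      refine Finset.card_le_card_of_injOn (phi l rel) (fun i hi => ?_) (phi_inj hl rel).injOn
      have hi' := Finset.mem_coe.mp hi
      rw [Finset.mem_filter] at hi'
      simpa using hi'.2
    · obtain ⟨t, ht, h⟩ := hd _ (phi_mem l rel w)
      obtain ⟨v, rfl⟩ := phi_surj rel (hTl t ht)
      refine ⟨v, by simpa using ht, ?_⟩
      by_cases hvw : v = w
      · exact Or.inl hvw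
      · right
        refine (adj_mtxOf l rel v w).mpr ⟨hvw, ?_⟩
        rcases h with h | h
        · exact absurd (phi_inj hl rel h) hvw
        · exact h

end Q224.RD
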