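import Pool.Agent.Q224.RD.Alg
import Pool.Agent.H628R2.FPTW
import Pool.Agent.H633R2.Fpt

/-!
# The running time
-/

set_option autoImplicit false

namespace Pool.Agent.NPC.Q224RD

open _root_.Q224.RD Pool.Agent.NPC.H628F Pool.Agent.H628R2.Forb Pool.Agent.H633R2

variable {α : Type} [TEnc α]

theorem p_entry {M : α → List (List Bool)} {i j : α → ℕ} (hM : Poly M) (hi : Poly i)
    (hj : Poly j) : Poly (fun a => entry (M a) (i a) (j a)) :=
  Poly.getD (Poly.getD hM hi (Poly.const [])) hj (Poly.const false)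

theorem p_adjB {M : α → List (List Bool)} {i j : α → ℕ} (hM : Poly M) (hi : Poly i)
    (hj : Poly j) : Poly (fun a => adjB (M a) (i a) (j a)) := by
  unfold adjB
  exact Poly.and (Poly.not (Poly.decide_eq hi hj)) (Poly.or (p_entry hM hi hj) (p_entry hM hj hi))

theorem p_reachB (r : ℕ) : ∀ {α : Type} [TEnc α] {M : α → List (List Bool)} {u v : α → ℕ},
    Poly M → Poly u → Poly v → Poly (fun a => reachB (M a) r (u a) (v a)) := by
  induction r with
  | zero =>
    intro α _ M u v _ hu hv
    exact Poly.decide_eq hu hv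
  | succ r ih =>
    intro α _ M u v hM hu hv
    refine Poly.any (p := fun a w => (decide (u a = w) || adjB (M a) (u a) w) &&
      reachB (M a) r w (v a)) (UPoly.length hM).range ?_
    have hM' := hM.comp (p_fst (α := α) (β := ℕ))
    have hu' := hu.comp (p_fst (α := α) (β := ℕ))
    have hv' := hv.comp (p_fst (α := α) (β := ℕ))
    exact Poly.and (Poly.or (Poly.decide_eq hu' p_snd) (p_adjB hM' hu' p_snd)) (ih hM' p_snd hv')

theorem p_isoB {M : α → List (List Bool)} {v : α → ℕ} (hM : Poly M) (hv : Poly v) :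
    Poly (fun a => isoB (M a) (v a)) := by
  unfold isoB
  refine Poly.not (Poly.any (p := fun a w => adjB (M a) (v a) w) (UPoly.length hM).range ?_)
  exact p_adjB (hM.comp p_fst) (hv.comp p_fst) p_snd

theorem p_cB {M : α → List (List Bool)} (hM : Poly M) : UPoly (fun a => cB (M a)) := by
  unfold cB
  exact UPoly.length (Poly.filter (p := fun a v => isoB (M a) v) (UPoly.length hM).range
    (p_isoB (hM.comp p_fst) p_snd))

theorem p_memB {B : α → List Bool} {v : α → ℕ} (hB : Poly B) (hv : Poly v) :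
    Poly (fun a => memB (B a) (v a)) := Poly.getD hB hv (Poly.const false)

theorem p_midB {M : α → List (List Bool)} {B : α → List Bool} {v : α → ℕ} (hM : Poly M)
    (hB : Poly B) (hv : Poly v) : Poly (fun a => midB (M a) (B a) (v a)) := by
  unfold midB
  refine Poly.and (Poly.not (p_memB hB hv)) (Poly.any
    (p := fun a w => !memB (B a) w && adjB (M a) (v a) w) (UPoly.length hM).range ?_)
  exact Poly.and (Poly.not (p_memB (hB.comp p_fst) p_snd))
    (p_adjB (hM.comp p_fst) (hv.comp p_fst) p_snd)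

theorem p_reachL (r : ℕ) {M : α → List (List Bool)} {u v : α → ℕ} (hM : Poly M) (hu : Poly u)
    (hv : Poly v) : Poly (fun a => reachL (M a) r (u a) (v a)) := by
  induction r with
  | zero => exact Poly.cons (p_reachB 0 hM hu hv) (Poly.const [])
  | succ r ih => exact Poly.append ih (Poly.cons (p_reachB (r + 1) hM hu hv) (Poly.const []))

theorem p_xsB {M : α → List (List Bool)} {B : α → List Bool} (hM : Poly M) (hB : Poly B) :
    Poly (fun a => xsB (M a) (B a)) := by
  unfold xsB
  exact Poly.filter (p := fun a v => memB (B a) v) (UPoly.length hM).range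
    (p_memB (hB.comp p_fst) p_snd)

theorem p_sigB (r : ℕ) {M : α → List (List Bool)} {B : α → List Bool} {v : α → ℕ} (hM : Poly M)
    (hB : Poly B) (hv : Poly v) : Poly (fun a => sigB r (M a) (B a) (v a)) := by
  unfold sigB
  refine Poly.cons (p_midB hM hB hv) (Poly.flatMap (F := fun a x => reachL (M a) r (v a) x)
    (p_xsB hM hB) ?_)
  exact p_reachL r (hM.comp p_fst) (hv.comp p_fst) p_snd

theorem p_reps (r : ℕ) {M : α → List (List Bool)} {B : α → List Bool} (hM : Poly M)
    (hB : Poly B) : Poly (fun a => reps r (M a) (B a)) := by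
  unfold reps
  refine Poly.filter (p := fun a v => (List.range (M a).length).all fun u =>
    !(decide (u < v) && decide (sigB r (M a) (B a) u = sigB r (M a) (B a) v)))
    (UPoly.length hM).range ?_
  refine Poly.all (p := fun (a : α × ℕ) u => !(decide (u < a.2) &&
    decide (sigB r (M a.1) (B a.1) u = sigB r (M a.1) (B a.1) a.2)))
    (UPoly.length (hM.comp p_fst)).range ?_
  have hM' : Poly (fun p : (α × ℕ) × ℕ => M p.1.1) := hM.comp (Poly.fst p_fst)
  have hB' : Poly (fun p : (α × ℕ) × ℕ => B p.1.1) := hB.comp (Poly.fst p_fst)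
  have h1 : Poly (fun p : (α × ℕ) × ℕ => p.1.2) := Poly.snd p_fst
  exact Poly.not (Poly.and (Poly.decide_lt p_snd h1)
    (Poly.decide_eq (p_sigB r hM' hB' p_snd) (p_sigB r hM' hB' h1)))

theorem p_degB {M : α → List (List Bool)} {B : α → List Bool} {v : α → ℕ} (hM : Poly M)
    (hB : Poly B) (hv : Poly v) : Poly (fun a => degB (M a) (B a) (v a)) := by
  unfold degB
  refine Poly.length (Poly.filter (p := fun a w => !memB (B a) w && adjB (M a) (v a) w)
    (UPoly.length hM).range ?_)
  exact Poly.and (Poly.not (p_memB (hB.comp p_fst) p_snd))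
    (p_adjB (hM.comp p_fst) (hv.comp p_fst) p_snd)

theorem p_KB {M : α → List (List Bool)} {B : α → List Bool} {t u v : α → ℕ} (hM : Poly M)
    (hB : Poly B) (ht : Poly t) (hu : Poly u) (hv : Poly v) :
    Poly (fun a => KB (M a) (B a) (t a) (u a) (v a)) := by
  unfold KB
  exact Poly.and (Poly.not (p_memB hB hv)) (Poly.or (Poly.decide_le ht (p_degB hM hB hv))
    (Poly.decide_eq hv hu))

theorem p_goodB {M : α → List (List Bool)} {B : α → List Bool} {t u : α → ℕ} (hM : Poly M)
    (hB : Poly B) (ht : Poly t) (hu : Poly u) :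
    Poly (fun a => goodB (M a) (B a) (t a) (u a)) := by
  unfold goodB
  refine Poly.all (p := fun a v => (List.range (M a).length).all fun w =>
    (!(KB (M a) (B a) (t a) (u a) v && KB (M a) (B a) (t a) (u a) w) || (decide (v = w) ||
      adjB (M a) v w)) && (memB (B a) v || memB (B a) w || KB (M a) (B a) (t a) (u a) v ||
      KB (M a) (B a) (t a) (u a) w || !adjB (M a) v w)) (UPoly.length hM).range ?_
  refine Poly.all (p := fun (a : α × ℕ) w =>
    (!(KB (M a.1) (B a.1) (t a.1) (u a.1) a.2 && KB (M a.1) (B a.1) (t a.1) (u a.1) w) ||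
      (decide (a.2 = w) || adjB (M a.1) a.2 w)) && (memB (B a.1) a.2 || memB (B a.1) w ||
      KB (M a.1) (B a.1) (t a.1) (u a.1) a.2 || KB (M a.1) (B a.1) (t a.1) (u a.1) w ||
      !adjB (M a.1) a.2 w)) (UPoly.length (hM.comp p_fst)).range ?_
  have hM' : Poly (fun p : (α × ℕ) × ℕ => M p.1.1) := hM.comp (Poly.fst p_fst)
  have hB' : Poly (fun p : (α × ℕ) × ℕ => B p.1.1) := hB.comp (Poly.fst p_fst)
  have ht' : Poly (fun p : (α × ℕ) × ℕ => t p.1.1) := ht.comp (Poly.fst p_fst)
  have hu' : Poly (fun p : (α × ℕ) × ℕ => u p.1.1) := hu.comp (Poly.fst p_fst)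
  have h1 : Poly (fun p : (α × ℕ) × ℕ => p.1.2) := Poly.snd p_fst
  have h2 : Poly (fun p : (α × ℕ) × ℕ => p.2) := p_snd
  have k1 := p_KB hM' hB' ht' hu' h1
  have k2 := p_KB hM' hB' ht' hu' h2
  have h3 := p_adjB hM' h1 h2
  exact Poly.and (Poly.or (Poly.not (Poly.and k1 k2)) (Poly.or (Poly.decide_eq h1 h2) h3))
    (Poly.or (Poly.or (Poly.or (Poly.or (p_memB hB' h1) (p_memB hB' h2)) k1) k2) (Poly.not h3))

theorem p_modB {M : α → List (List Bool)} {B : α → List Bool} (hM : Poly M)
    (hB : Poly B) : Poly (fun a => modB (M a) (B a)) := by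
  unfold modB
  have hn := UPoly.add (UPoly.length hM) (UPoly.const 1)
  refine Poly.any (p := fun a t => (List.range ((M a).length + 1)).any fun u =>
    goodB (M a) (B a) t u) hn.range ?_
  refine Poly.any (p := fun (a : α × ℕ) u => goodB (M a.1) (B a.1) a.2 u)
    (hn.comp p_fst).range ?_
  exact p_goodB (hM.comp (Poly.fst p_fst)) (hB.comp (Poly.fst p_fst)) (Poly.snd p_fst) p_snd

/-- The exponent of the padding. -/
def mm (r k : ℕ) : ℕ := (k * (r + 1) + 2) * k

/-- The size of the modulator. -/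
def kap (x : Inst) : ℕ := (setOf x.1.length x.2.1).card

theorem kap_eq (x : Inst) : kap x = (xsB x.1 x.2.1).length := (xsB_length _ _).symm

theorem primrec_mm (r : ℕ) : Primrec (mm r) := by
  have h1 : Primrec (fun k : ℕ => k * (r + 1) + 2) :=
    Primrec.nat_add.comp (Primrec.nat_mul.comp Primrec.id (Primrec.const (r + 1)))
      (Primrec.const 2)
  exact Primrec.nat_mul.comp h1 Primrec.id

theorem u_kap {M : α → List (List Bool)} {B : α → List Bool} (hM : Poly M)
    (hB : Poly B) : UPoly (fun a => (xsB (M a) (B a)).length) := UPoly.length (p_xsB hM hB)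

theorem hm (r : ℕ) : UPoly (fun x : Inst => mm r (kap x)) := by
  have h1 : UPoly (fun x : Inst => (xsB x.1 x.2.1).length) := u_kap p_fst (Poly.fst p_snd)
  have h2 : UPoly (fun x : Inst => mm r (xsB x.1 x.2.1).length) :=
    UPoly.mul (UPoly.add (UPoly.mul h1 (UPoly.const (r + 1))) (UPoly.const 2)) h1
  exact Poly.congr h2 fun x => congrArg (fun k => List.replicate (mm r k) ()) (kap_eq x).symm

theorem p_solve (r : ℕ) {M : α → List (List Bool)} {B : α → List Bool} {l N : α → ℕ}
    (hM : Poly M) (hB : Poly B) (hl : Poly l) (hN : UPoly N)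
    (hb : ∀ a, ((reps r (M a) (B a)).length + 1) ^ (xsB (M a) (B a)).length ≤ N a) :
    Poly (fun a => solve r (M a, B a, l a)) := by
  have hk := u_kap hM hB
  have he := p_enum (p_reps r hM hB) hk hN hb
  have hc := p_cB hM
  refine Poly.or (Poly.decide_le (UPoly.add (UPoly.add hc hk) (UPoly.const 1)).toPoly hl)
    (Poly.and (Poly.decide_le hc.toPoly hl) ?_)
  refine Poly.any (p := fun (a : α) (T : List ℕ) => decide (T.length + cB (M a) ≤ l a) &&
    (List.range (M a).length).all fun v => isoB (M a) v ||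
      T.any fun s => reachB (M a) r v s) he ?_
  refine Poly.and (Poly.decide_le (Poly.add (Poly.length p_snd) (hc.toPoly.comp p_fst))
    (hl.comp p_fst)) ?_
  refine Poly.all (p := fun (a : α × List ℕ) v => isoB (M a.1) v ||
    a.2.any fun s => reachB (M a.1) r v s) (UPoly.length (hM.comp p_fst)).range ?_
  have hM' : Poly (fun a : (α × List ℕ) × ℕ => M a.1.1) := hM.comp (Poly.fst p_fst)
  refine Poly.or (p_isoB hM' p_snd) ?_
  refine Poly.any (p := fun (a : (α × List ℕ) × ℕ) s => reachB (M a.1.1) r a.2 s)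
    (Poly.snd p_fst) ?_
  exact p_reachB r (hM'.comp p_fst) (Poly.snd p_fst) p_snd

theorem bound (r : ℕ) (x : Inst) : ((reps r x.1 x.2.1).length + 1) ^ (xsB x.1 x.2.1).length ≤
    2 ^ mm r (kap x) := by
  rw [mm, pow_mul, kap_eq]
  apply Nat.pow_le_pow_left
  have h4 := reps_length r x.1 x.2.1
  have h5 : 1 ≤ 2 ^ ((xsB x.1 x.2.1).length * (r + 1)) := Nat.one_le_two_pow
  rw [pow_succ] at *
  omega

theorem hg (r : ℕ) : Poly (fun x : {x : Inst × List Unit // 2 ^ (mm r (kap x.1)) ≤ x.2.length} =>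
    modB x.1.1.1 x.1.1.2.1 && solve r x.1.1) := by
  have hv := Poly.val (fun x : Inst × List Unit => 2 ^ (mm r (kap x.1)) ≤ x.2.length)
  have h1 := Poly.fst hv
  have hM := Poly.fst h1
  have hB := Poly.fst (Poly.snd h1)
  have hl := Poly.snd (Poly.snd h1)
  exact Poly.and (p_modB hM hB) (p_solve r hM hB hl (UPoly.length (Poly.snd hv))
    (fun a => (bound r a.1.1).trans a.2))

theorem fptTime (r : ℕ) : FptTime kap (fun x : Inst => modB x.1 x.2.1 && solve r x) := by
  have key := fpt_tm (fun x : Inst => modB x.1 x.2.1 && solve r x) kap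
    (mm r) (primrec_mm r) (hm r) (hg r)
  obtain ⟨tm, e₀, e₁, f, d, hf, h⟩ := key
  refine ⟨⟨tm, e₀, e₁⟩, f, (Polynomial.X + Polynomial.C 1) ^ d, hf, fun a => ?_⟩
  have := h a
  simp only [Polynomial.eval_pow, Polynomial.eval_add, Polynomial.eval_X, Polynomial.eval_C]
  exact this

/-- The parameterized problem: `X` is a split modulator, and there is an `r`-dominating set with
at most `l` vertices. -/
def RDomSVD (r : ℕ) (x : Inst) : Prop :=
  IsModulator (graphOf x.1) (setOf x.1.length x.2.1 : Set (Fin x.1.length)) ∧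
    HasRDS (graphOf x.1) r x.2.2

theorem isFpt {r : ℕ} (hr : 3 ≤ r) : IsFpt kap (RDomSVD r) := by
  refine ⟨fun x => modB x.1 x.2.1 && solve r x, fptTime r, fun x => ?_⟩
  rw [Bool.and_eq_true, modB_iff]
  exact and_congr_right fun hX => solve_iff hr x hX

end Pool.Agent.NPC.Q224RD
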