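import Pool.Agent.Q224.RD.Main
import Pool.Agent.H633R2.CtrDefs
import Pool.Agent.H628R2.Forb.PolyF

/-!
# The algorithm for `r ≥ 3`
-/

set_option autoImplicit false

namespace Q224.RD

open Pool.Agent.H633R2 Pool.Agent.H628R2.Forb

/-- An instance: the adjacency matrix of a graph, the characteristic vector of a set `X` of
vertices, and a number `l`. -/
abbrev Inst := List (List Bool) × List Bool × ℕ

/-- The vertex set given by its characteristic vector (missing entries are `0`). -/
def setOf (n : ℕ) (B : List Bool) : Finset (Fin n) :=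
  Finset.univ.filter fun v => B.getD v false = true

/-! ### Lists -/

theorem any_range {n : ℕ} {p : ℕ → Bool} :
    ((List.range n).any p = true) ↔ ∃ i : Fin n, p i = true := by
  rw [List.any_eq_true]
  constructor
  · rintro ⟨i, hi, h⟩
    exact ⟨⟨i, List.mem_range.mp hi⟩, h⟩
  · rintro ⟨i, h⟩
    exact ⟨i, List.mem_range.mpr i.2, h⟩

theorem all_range {n : ℕ} {p : ℕ → Bool} :
    ((List.range n).all p = true) ↔ ∀ i : Fin n, p i = true := by
  rw [List.all_eq_true]
  constructor
  · intro h i
    exact h i (List.mem_range.mpr i.2)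
  · intro h i hi
    exact h ⟨i, List.mem_range.mp hi⟩

theorem filter_range_length (n : ℕ) (p : ℕ → Bool) :
    ((List.range n).filter p).length = (Finset.univ.filter fun v : Fin n => p v = true).card := by
  classical
  rw [← List.toFinset_card_of_nodup (List.Nodup.filter _ List.nodup_range)]
  rw [← Finset.card_map Fin.valEmbedding]
  congr 1
  ext x
  simp only [List.mem_toFinset, List.mem_filter, List.mem_range, Finset.mem_map, Finset.mem_filter,
    Finset.mem_univ, true_and, Fin.valEmbedding_apply]
  constructor
  · rintro ⟨h1, h2⟩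
    exact ⟨⟨x, h1⟩, h2, rfl⟩
  · rintro ⟨a, h1, rfl⟩
    exact ⟨a.2, h1⟩

theorem flatMap_inj {α β : Type} (xs : List α) (f g : α → List β) (L : ℕ)
    (hf : ∀ x ∈ xs, (f x).length = L) (hg : ∀ x ∈ xs, (g x).length = L)
    (h : xs.flatMap f = xs.flatMap g) : ∀ x ∈ xs, f x = g x := by
  induction xs with
  | nil => intro x hx; simp at hx
  | cons a xs ih =>
    rw [List.flatMap_cons, List.flatMap_cons] at h
    have h1 := List.append_inj h (by
      rw [hf a List.mem_cons_self, hg a List.mem_cons_self])
    intro x hx
    rcases List.mem_cons.mp hx with rfl | hx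
    · exact h1.1
    · exact ih (fun x hx => hf x (List.mem_cons_of_mem _ hx))
        (fun x hx => hg x (List.mem_cons_of_mem _ hx)) h1.2 x hx

theorem length_le_two_pow {L : ℕ} {l : List (List Bool)} (hl : l.Nodup)
    (h : ∀ x ∈ l, x.length = L) : l.length ≤ 2 ^ L := by
  classical
  rw [← List.toFinset_card_of_nodup hl]
  have h1 : l.toFinset ⊆ (Finset.univ : Finset (Fin L → Bool)).image List.ofFn := by
    intro x hx
    rw [List.mem_toFinset] at hx
    have h2 := h x hx
    subst h2
    rw [Finset.mem_image]
    exact ⟨x.get, Finset.mem_univ _, List.ofFn_get x⟩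
  refine (Finset.card_le_card h1).trans (Finset.card_image_le.trans ?_)
  rw [Finset.card_univ, Fintype.card_fun, Fintype.card_bool, Fintype.card_fin]

/-! ### The tests -/

/-- Adjacency. -/
def adjB (M : List (List Bool)) (i j : ℕ) : Bool := !decide (i = j) && (entry M i j || entry M j i)

theorem adjB_iff {M : List (List Bool)} {i j : Fin M.length} :
    adjB M i j = true ↔ (graphOf M).Adj i j := by
  simp [adjB, graphOf, Fin.ext_iff]

/-- Distance at most `r`. -/
def reachB (M : List (List Bool)) : ℕ → ℕ → ℕ → Bool
  | 0, u, v => decide (u = v)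
  | r + 1, u, v => (List.range M.length).any fun w =>
      (decide (u = w) || adjB M u w) && reachB M r w v

theorem reachB_iff {M : List (List Bool)} {r : ℕ} {u v : Fin M.length} :
    reachB M r u v = true ↔ Near (graphOf M) r u v := by
  induction r generalizing u with
  | zero => simp [reachB, Near, Fin.ext_iff]
  | succ r ih =>
    rw [reachB, any_range]
    simp only [Bool.and_eq_true, Bool.or_eq_true, decide_eq_true_eq, adjB_iff, ih]
    simp only [Near, Fin.ext_iff]

/-- Isolated vertices. -/
def isoB (M : List (List Bool)) (v : ℕ) : Bool := !((List.range M.length).any fun w => adjB M v w)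

theorem isoB_iff {M : List (List Bool)} {v : Fin M.length} :
    isoB M v = true ↔ v ∈ iso (graphOf M) := by
  rw [mem_iso, isoB, Bool.not_eq_true', ← Bool.not_eq_true, any_range]
  simp only [adjB_iff]

/-- The number of isolated vertices. -/
def cB (M : List (List Bool)) : ℕ := ((List.range M.length).filter (isoB M)).length

theorem cB_eq (M : List (List Bool)) : cB M = (iso (graphOf M)).card := by
  rw [cB, filter_range_length]
  congr 1
  ext v
  rw [Finset.mem_filter]
  simp only [Finset.mem_univ, true_and]
  exact isoB_iff

/-- Membership in the set given by the characteristic vector. -/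
def memB (B : List Bool) (v : ℕ) : Bool := B.getD v false

theorem memB_iff {n : ℕ} {B : List Bool} {v : Fin n} : memB B v = true ↔ v ∈ setOf n B := by
  simp [memB, setOf]

/-- Vertices outside `X` with a neighbour outside `X`. -/
def midB (M : List (List Bool)) (B : List Bool) (v : ℕ) : Bool :=
  !memB B v && (List.range M.length).any fun w => !memB B w && adjB M v w

theorem midB_iff {M : List (List Bool)} {B : List Bool} {v : Fin M.length} :
    midB M B v = true ↔ v ∈ Mid (graphOf M) (setOf M.length B : Set (Fin M.length)) := by
  rw [midB, Bool.and_eq_true, any_range, Mid, Set.mem_ofPred_eq]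
  simp only [Bool.and_eq_true, adjB_iff, Bool.not_eq_true', ← Bool.not_eq_true, memB_iff,
    Finset.mem_coe]

/-- The tests `Near j v x` for `j ≤ r`. -/
def reachL (M : List (List Bool)) : ℕ → ℕ → ℕ → List Bool
  | 0, v, x => [reachB M 0 v x]
  | r + 1, v, x => reachL M r v x ++ [reachB M (r + 1) v x]

theorem reachL_length (M : List (List Bool)) (r v x : ℕ) : (reachL M r v x).length = r + 1 := by
  induction r with
  | zero => rfl
  | succ r ih => rw [reachL, List.length_append, ih]; rfl

theorem reachL_eq {M : List (List Bool)} {r u v x : ℕ} (h : reachL M r u x = reachL M r v x) :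
    ∀ j ≤ r, reachB M j u x = reachB M j v x := by
  induction r with
  | zero =>
    intro j hj
    obtain rfl : j = 0 := by omega
    simpa [reachL] using h
  | succ r ih =>
    have h1 := List.append_inj h (by rw [reachL_length, reachL_length])
    intro j hj
    rcases Nat.lt_or_ge r j with hj' | hj'
    · obtain rfl : j = r + 1 := by omega
      simpa using h1.2
    · exact ih h1.1 j hj'

/-- The list of the vertices in `X`. -/
def xsB (M : List (List Bool)) (B : List Bool) : List ℕ := (List.range M.length).filter (memB B)

theorem xsB_length (M : List (List Bool)) (B : List Bool) :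
    (xsB M B).length = (setOf M.length B).card := filter_range_length _ _

/-- The signature of a vertex. -/
def sigB (r : ℕ) (M : List (List Bool)) (B : List Bool) (v : ℕ) : List Bool :=
  midB M B v :: (xsB M B).flatMap fun x => reachL M r v x

theorem sigB_length (r : ℕ) (M : List (List Bool)) (B : List Bool) (v : ℕ) :
    (sigB r M B v).length = (xsB M B).length * (r + 1) + 1 := by
  rw [sigB, List.length_cons, List.length_flatMap]
  simp [reachL_length]

theorem same_of_sigB {r : ℕ} {M : List (List Bool)} {B : List Bool} {s t : Fin M.length}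
    (h : sigB r M B s = sigB r M B t) :
    Same (graphOf M) (setOf M.length B : Set (Fin M.length)) r s t := by
  rw [sigB, sigB, List.cons.injEq] at h
  refine ⟨?_, fun x hx j hj => ?_⟩
  · rw [← midB_iff, ← midB_iff, h.1]
  · have h1 := flatMap_inj _ _ _ (r + 1) (fun x _ => reachL_length _ _ _ _)
      (fun x _ => reachL_length _ _ _ _) h.2 x (by
        rw [xsB, List.mem_filter, List.mem_range]
        exact ⟨x.2, memB_iff.mpr hx⟩)
    rw [← reachB_iff, ← reachB_iff, reachL_eq h1 j hj]

/-- The representatives of the signatures. -/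
def reps (r : ℕ) (M : List (List Bool)) (B : List Bool) : List ℕ :=
  (List.range M.length).filter fun v => (List.range M.length).all fun u =>
    !(decide (u < v) && decide (sigB r M B u = sigB r M B v))

theorem mem_reps {r : ℕ} {M : List (List Bool)} {B : List Bool} {v : ℕ} :
    v ∈ reps r M B ↔ v < M.length ∧ ∀ u < v, sigB r M B u ≠ sigB r M B v := by
  rw [reps, List.mem_filter, List.mem_range]
  refine and_congr_right fun hv => ?_
  rw [List.all_eq_true]
  simp only [List.mem_range, Bool.not_eq_true', Bool.and_eq_false_iff, decide_eq_false_iff_not]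
  constructor
  · intro h u hu
    rcases h u (hu.trans hv) with h1 | h1
    · exact absurd hu h1
    · exact h1
  · intro h u _
    by_cases hu : u < v
    · exact Or.inr (h u hu)
    · exact Or.inl hu

theorem reps_length (r : ℕ) (M : List (List Bool)) (B : List Bool) :
    (reps r M B).length ≤ 2 ^ ((xsB M B).length * (r + 1) + 1) := by
  have h1 : ((reps r M B).map (sigB r M B)).Nodup := by
    refine List.Nodup.map_on ?_ (List.Nodup.filter _ List.nodup_range)
    intro x hx y hy hxy
    rw [mem_reps] at hx hy
    rcases lt_trichotomy x y with h | h | h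
    · exact absurd hxy (hy.2 x h)
    · exact h
    · exact absurd hxy.symm (hx.2 y h)
  have h2 := length_le_two_pow h1 (L := (xsB M B).length * (r + 1) + 1) (by
    intro x hx
    rw [List.mem_map] at hx
    obtain ⟨v, -, rfl⟩ := hx
    exact sigB_length _ _ _ _)
  rwa [List.length_map] at h2

theorem exists_rep (r : ℕ) (M : List (List Bool)) (B : List Bool) (s : Fin M.length) :
    ∃ t : Fin M.length, (t : ℕ) ∈ reps r M B ∧ sigB r M B s = sigB r M B t := by
  classical
  have h : ∃ u, sigB r M B u = sigB r M B s := ⟨s, rfl⟩
  have h1 := Nat.find_spec h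
  have h2 : Nat.find h ≤ s := Nat.find_min' h rfl
  refine ⟨⟨Nat.find h, h2.trans_lt s.2⟩, ?_, h1.symm⟩
  rw [mem_reps]
  refine ⟨h2.trans_lt s.2, fun u hu => ?_⟩
  intro h3
  exact Nat.find_min h hu (h3.trans h1)

/-- The test for `r ≥ 3`. -/
def solve (r : ℕ) (x : Inst) : Bool :=
  decide (cB x.1 + (xsB x.1 x.2.1).length + 1 ≤ x.2.2) ||
    (decide (cB x.1 ≤ x.2.2) && (enum (reps r x.1 x.2.1) (xsB x.1 x.2.1).length).any fun T =>
      decide (T.length + cB x.1 ≤ x.2.2) && (List.range x.1.length).all fun v =>
        isoB x.1 v || T.any fun s => reachB x.1 r v s)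

theorem exists_lift {n : ℕ} {T : List ℕ} (h : ∀ t ∈ T, t < n) :
    ∃ T' : List (Fin n), T = T'.map Fin.val := by
  refine ⟨T.pmap (fun a h => ⟨a, h⟩) h, ?_⟩
  rw [List.map_pmap]
  simp

theorem solve_iff {r : ℕ} (hr : 3 ≤ r) (x : Inst)
    (hX : IsModulator (graphOf x.1) (setOf x.1.length x.2.1 : Set (Fin x.1.length))) :
    solve r x = true ↔ HasRDS (graphOf x.1) r x.2.2 := by
  classical
  choose rep hrep1 hrep2 using exists_rep r x.1 x.2.1
  rw [hasRDS_iff_rep hr hX rep (fun s => same_of_sigB (hrep2 s))]
  unfold solve
  rw [Bool.or_eq_true, decide_eq_true_eq, Bool.and_eq_true, decide_eq_true_eq, cB_eq, xsB_length]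
  refine or_congr Iff.rfl (and_congr Iff.rfl ?_)
  rw [List.any_eq_true]
  constructor
  · rintro ⟨T, hT, h⟩
    rw [mem_enum] at hT
    obtain ⟨T', rfl⟩ := exists_lift (fun t ht => (mem_reps.mp (hT.2 t ht)).1)
    rw [Bool.and_eq_true, decide_eq_true_eq, all_range] at h
    refine ⟨T', by simpa using hT.1, by simpa using h.1, ?_, ?_⟩
    · intro t ht
      refine ⟨t, ?_⟩
      have h1 := mem_reps.mp (hT.2 t (List.mem_map_of_mem ht))
      have h2 := mem_reps.mp (hrep1 t)
      have h3 := hrep2 t
      rcases lt_trichotomy (t : ℕ) (rep t : ℕ) with h4 | h4 | h4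
      · exact absurd h3 (h2.2 _ h4)
      · exact Fin.ext h4
      · exact absurd h3.symm (h1.2 _ h4)
    · intro v hv
      have h1 := h.2 v
      rw [Bool.or_eq_true] at h1
      rcases h1 with h1 | h1
      · exact absurd (isoB_iff.mp h1) hv
      · rw [List.any_map, List.any_eq_true] at h1
        obtain ⟨s, hs, h2⟩ := h1
        exact ⟨s, hs, reachB_iff.mp h2⟩
  · rintro ⟨T, h1, h2, h3, h4⟩
    refine ⟨T.map Fin.val, ?_, ?_⟩
    · rw [mem_enum]
      refine ⟨by simpa using h1, fun t ht => ?_⟩
      rw [List.mem_map] at ht
      obtain ⟨t, ht, rfl⟩ := ht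
      obtain ⟨s, rfl⟩ := h3 t ht
      exact hrep1 s
    · rw [Bool.and_eq_true, decide_eq_true_eq, all_range]
      refine ⟨by simpa using h2, fun v => ?_⟩
      rw [Bool.or_eq_true]
      by_cases hv : v ∈ iso (graphOf x.1)
      · exact Or.inl (isoB_iff.mpr hv)
      · right
        obtain ⟨s, hs, h⟩ := h4 v hv
        rw [List.any_map, List.any_eq_true]
        exact ⟨s, hs, reachB_iff.mpr h⟩

/-! ### Recognizing split modulators -/

/-- The degree outside `X`. -/
def degB (M : List (List Bool)) (B : List Bool) (v : ℕ) : ℕ :=
  ((List.range M.length).filter fun w => !memB B w && adjB M v w).length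

theorem degB_eq {M : List (List Bool)} {B : List Bool} {v : Fin M.length} :
    degB M B v = deg' (graphOf M) (setOf M.length B) v := by
  classical
  rw [degB, filter_range_length, deg']
  congr 1
  ext w
  rw [Finset.mem_filter, Finset.mem_filter]
  simp only [Finset.mem_univ, true_and, Bool.and_eq_true, adjB_iff, Bool.not_eq_true',
    ← Bool.not_eq_true, memB_iff]

/-- The threshold clique. -/
def KB (M : List (List Bool)) (B : List Bool) (t u v : ℕ) : Bool :=
  !memB B v && (decide (t ≤ degB M B v) || decide (v = u))

/-- The test of the threshold clique. -/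
def goodB (M : List (List Bool)) (B : List Bool) (t u : ℕ) : Bool :=
  (List.range M.length).all fun v => (List.range M.length).all fun w =>
    (!(KB M B t u v && KB M B t u w) || (decide (v = w) || adjB M v w)) &&
      (memB B v || memB B w || KB M B t u v || KB M B t u w || !adjB M v w)

/-- The test for split modulators. -/
def modB (M : List (List Bool)) (B : List Bool) : Bool :=
  (List.range (M.length + 1)).any fun t => (List.range (M.length + 1)).any fun u => goodB M B t u

theorem goodB_iff {M : List (List Bool)} {B : List Bool} {t u : ℕ} {K : Finset (Fin M.length)}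
    (hK : ∀ v : Fin M.length, v ∈ K ↔ KB M B t u v = true) :
    goodB M B t u = true ↔ Good (graphOf M) (setOf M.length B) K := by
  rw [goodB, all_range]
  simp only [all_range, Bool.and_eq_true, Bool.or_eq_true, Bool.not_eq_true',
    decide_eq_true_eq, ← hK, adjB_iff, memB_iff, ← Bool.not_eq_true]
  constructor
  · intro h
    refine ⟨fun v hv => ?_, fun v hv w hw hne => ?_, fun v w h1 h2 h3 h4 => ?_⟩
    · have h1 := (hK v).mp hv
      rw [KB, Bool.and_eq_true, Bool.not_eq_true', ← Bool.not_eq_true, memB_iff] at h1
      exact h1.1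
    · rcases (h v w).1 with h5 | h5
      · tauto
      · rcases h5 with h5 | h5
        · exact absurd (Fin.ext h5) hne
        · exact h5
    · have := (h v w).2
      tauto
  · rintro ⟨h1, h2, h3⟩ v w
    refine ⟨?_, ?_⟩
    · by_cases hv : v ∈ K
      · by_cases hw : w ∈ K
        · by_cases hne : v = w
          · exact Or.inr (Or.inl (congrArg _ hne))
          · exact Or.inr (Or.inr (h2 v hv w hw hne))
        · exact Or.inl (fun h => hw h.2)
      · exact Or.inl (fun h => hv h.1)
    · have := h3 v w
      tauto

theorem modB_iff {M : List (List Bool)} {B : List Bool} : modB M B = true ↔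
    IsModulator (graphOf M) (setOf M.length B : Set (Fin M.length)) := by
  classical
  rw [isModulator_iff_good, modB, any_range]
  simp only [any_range]
  constructor
  · rintro ⟨t, u, h⟩
    refine ⟨Finset.univ.filter fun v : Fin M.length => KB M B t u v = true, ?_⟩
    exact (goodB_iff (fun v => by simp)).mp h
  · intro h
    obtain ⟨t, ht, u, K, hK, hm⟩ := good_threshold h
    rw [Fintype.card_fin] at ht
    refine ⟨⟨t, by omega⟩, ⟨(u.map Fin.val).getD M.length, ?_⟩, ?_⟩
    · rcases u with _ | u
      · simp
      · have := u.2
        simp only [Option.map_some, Option.getD_some]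
        omega
    · refine (goodB_iff (K := K) (fun v => ?_)).mpr hK
      rw [hm, KB, Bool.and_eq_true, Bool.or_eq_true, decide_eq_true_eq, decide_eq_true_eq,
        Bool.not_eq_true', ← Bool.not_eq_true, memB_iff, degB_eq]
      refine and_congr Iff.rfl (or_congr Iff.rfl ?_)
      rcases u with _ | u
      · have := v.2
        simp only [Option.map_none, Option.getD_none, reduceCtorEq, false_iff]
        omega
      · simp [Fin.ext_iff]

end Q224.RD
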