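import Pool.Agent.Q224.RD.Mem

/-!
# W[2]-hardness for `r = 2`
-/

set_option autoImplicit false

namespace Q224.RD

open Pool.Agent.H633R2

/-- The codes of the vertices of the new graph: `(0, i, 0)` is `x_i`, `(1, v, 0)` is `w_v`,
`(2, e, 0)` is the element `e`, `(3, v, i)` is `u_{v, i}` and `(4, i, 0)` is the pendant `p_i`. -/
abbrev Cd := ℕ × ℕ × ℕ

/-- The codes that are used. -/
def VD (n k : ℕ) (d : Cd) : Prop :=
  (d.1 = 0 ∧ d.2.1 < k ∧ d.2.2 = 0) ∨ (d.1 = 1 ∧ d.2.1 < n ∧ d.2.2 = 0) ∨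
    (d.1 = 2 ∧ d.2.1 < n ∧ d.2.2 = 0) ∨ (d.1 = 3 ∧ d.2.1 < n ∧ d.2.2 < k) ∨
    (d.1 = 4 ∧ d.2.1 < k ∧ d.2.2 = 0)

/-- The relation. -/
def rel (dm : ℕ → ℕ → Bool) (d e : Cd) : Bool :=
  (decide (d.1 = 0) && decide (e.1 = 3) && decide (d.2.1 = e.2.2)) ||
  (decide (d.1 = 0) && decide (e.1 = 4) && decide (d.2.1 = e.2.1)) ||
  (decide (d.1 = 1) && decide (e.1 = 1)) ||
  (decide (d.1 = 1) && decide (e.1 = 2) && dm d.2.1 e.2.1) ||
  (decide (d.1 = 1) && decide (e.1 = 3) && decide (d.2.1 = e.2.1))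

/-- The list of vertices. -/
def vl (n k : ℕ) : List Cd :=
  ((List.range k).map fun i => (0, i, 0)) ++ (((List.range n).map fun v => (1, v, 0)) ++
    (((List.range n).map fun e => (2, e, 0)) ++
      (((List.range n).flatMap fun v => (List.range k).map fun i => (3, v, i)) ++
        ((List.range k).map fun i => (4, i, 0)))))

theorem mem_vl {n k : ℕ} {d : Cd} : d ∈ vl n k ↔ VD n k d := by
  obtain ⟨a, b, c⟩ := d
  simp only [vl, VD, List.mem_append, List.mem_map, List.mem_range, List.mem_flatMap,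
    Prod.mk.injEq]
  refine or_congr ?_ (or_congr ?_ (or_congr ?_ (or_congr ?_ ?_)))
  · constructor
    · rintro ⟨i, hi, h1, h2, h3⟩; omega
    · rintro ⟨h1, h2, h3⟩; exact ⟨b, h2, h1.symm, rfl, h3.symm⟩
  · constructor
    · rintro ⟨i, hi, h1, h2, h3⟩; omega
    · rintro ⟨h1, h2, h3⟩; exact ⟨b, h2, h1.symm, rfl, h3.symm⟩
  · constructor
    · rintro ⟨i, hi, h1, h2, h3⟩; omega
    · rintro ⟨h1, h2, h3⟩; exact ⟨b, h2, h1.symm, rfl, h3.symm⟩
  · constructor
    · rintro ⟨v, hv, i, hi, h1, h2, h3⟩; omega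
    · rintro ⟨h1, h2, h3⟩; exact ⟨b, h2, c, h3, h1.symm, rfl, rfl⟩
  · constructor
    · rintro ⟨i, hi, h1, h2, h3⟩; omega
    · rintro ⟨h1, h2, h3⟩; exact ⟨b, h2, h1.symm, rfl, h3.symm⟩

theorem nodup_vl (n k : ℕ) : (vl n k).Nodup := by
  have hr := fun m : ℕ => List.nodup_range (n := m)
  unfold vl
  rw [List.nodup_append, List.nodup_append, List.nodup_append, List.nodup_append]
  refine ⟨(hr k).map (fun a b h => by simpa using h), ⟨(hr n).map (fun a b h => by simpa using h),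
    ⟨(hr n).map (fun a b h => by simpa using h), ⟨?_, (hr k).map (fun a b h => by simpa using h),
    ?_⟩, ?_⟩, ?_⟩, ?_⟩
  · rw [List.nodup_flatMap]
    refine ⟨fun v _ => (hr k).map (fun a b h => by simpa using h), ?_⟩
    refine (hr n).imp ?_
    intro a b hab
    show List.Disjoint _ _
    intro d hd hd'
    rw [List.mem_map] at hd hd'
    obtain ⟨i, -, rfl⟩ := hd
    obtain ⟨j, -, h⟩ := hd'
    simp only [Prod.mk.injEq] at h
    exact hab h.2.1.symm
  all_goals
    intro a ha b hb h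
    subst h
    simp only [List.mem_append, List.mem_map, List.mem_flatMap] at ha hb
    grind

/-- The layout of the graph. -/
structure Lay {V : Type*} (G : SimpleGraph V) (φ : V → Cd) (n k : ℕ) (dm : ℕ → ℕ → Bool) :
    Prop where
  inj : Function.Injective φ
  adj : ∀ u v, G.Adj u v ↔ u ≠ v ∧ (rel dm (φ u) (φ v) = true ∨ rel dm (φ v) (φ u) = true)
  mem : ∀ u, VD n k (φ u)
  surj : ∀ d, VD n k d → ∃ u, φ u = d

section

variable {V : Type*} {G : SimpleGraph V} {φ : V → Cd} {n k : ℕ} {dm : ℕ → ℕ → Bool}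

theorem rel_iff {d e : Cd} : rel dm d e = true ↔ (d.1 = 0 ∧ e.1 = 3 ∧ d.2.1 = e.2.2) ∨
    (d.1 = 0 ∧ e.1 = 4 ∧ d.2.1 = e.2.1) ∨ (d.1 = 1 ∧ e.1 = 1) ∨
    (d.1 = 1 ∧ e.1 = 2 ∧ dm d.2.1 e.2.1 = true) ∨ (d.1 = 1 ∧ e.1 = 3 ∧ d.2.1 = e.2.1) := by
  unfold rel
  simp only [Bool.or_eq_true, Bool.and_eq_true, decide_eq_true_eq, and_assoc, or_assoc]

theorem near_two {u v : V} : Near G 2 u v ↔ ∃ w, (u = w ∨ G.Adj u w) ∧ (w = v ∨ G.Adj w v) := by
  constructor
  · rintro ⟨w, h1, w', h2, h3⟩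
    have h3' : w' = v := h3
    subst h3'
    exact ⟨w, h1, h2⟩
  · rintro ⟨w, h1, h2⟩
    exact ⟨w, h1, v, h2, rfl⟩

theorem Lay.adj' (h : Lay G φ n k dm) {u v : V} (h1 : φ u ≠ φ v)
    (h2 : rel dm (φ u) (φ v) = true ∨ rel dm (φ v) (φ u) = true) : G.Adj u v :=
  (h.adj u v).mpr ⟨fun h3 => h1 (by rw [h3]), h2⟩

theorem modulator_lay (h : Lay G φ n k dm) : IsModulator G {u | (φ u).1 = 0} := by
  rw [isModulator_iff]
  refine ⟨{u | (φ u).1 = 1}, ?_, ?_, ?_⟩
  · intro v hv hv'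
    rw [Set.mem_ofPred_eq] at hv hv'
    omega
  · intro u hu v hv hne
    rw [Set.mem_ofPred_eq] at hu hv
    refine (h.adj u v).mpr ⟨hne, Or.inl (rel_iff.mpr ?_)⟩
    exact Or.inr (Or.inr (Or.inl ⟨hu, hv⟩))
  · intro u v hu hv hu' hv' hadj
    rw [Set.mem_ofPred_eq] at hu hv hu' hv'
    rcases ((h.adj u v).mp hadj).2 with h1 | h1
    · rw [rel_iff] at h1
      omega
    · rw [rel_iff] at h1
      omega

theorem backward [Fintype V] [DecidableEq V] (h : Lay G φ n k dm) {D : ℕ → ℕ}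
    (hD : ∀ i < k, D i < n) (hd : ∀ e < n, ∃ i < k, dm (D i) e = true) : HasRDS G 2 k := by
  classical
  have hs : ∀ i : Fin k, ∃ u, φ u = (3, D i, (i : ℕ)) := fun i =>
    h.surj (3, D i, (i : ℕ)) (Or.inr (Or.inr (Or.inr (Or.inl ⟨rfl, hD i i.2, i.2⟩))))
  choose s hs using hs
  refine ⟨Finset.univ.image s, ?_, fun v => ?_⟩
  · exact Finset.card_image_le.trans (by simp)
  · have key : ∀ i : Fin k, Near G 2 v (s i) → ∃ s' ∈ Finset.univ.image s, Near G 2 v s' :=
      fun i hi => ⟨s i, Finset.mem_image_of_mem _ (Finset.mem_univ i), hi⟩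
    -- the vertices `w_v`
    have hw : ∀ a < n, ∃ u, φ u = (1, a, 0) := fun a ha =>
      h.surj _ (Or.inr (Or.inl ⟨rfl, ha, rfl⟩))
    rcases h.mem v with hv | hv | hv | hv | hv
    · -- `x_i`
      refine key ⟨_, hv.2.1⟩ (near_two.mpr ⟨v, Or.inl rfl, Or.inr (h.adj' ?_ ?_)⟩)
      · rw [hs]
        intro h1
        rw [h1] at hv
        exact absurd hv.1 (by norm_num)
      · left
        rw [rel_iff, hs]
        left
        exact ⟨hv.1, rfl, rfl⟩
    · -- `w_a`
      obtain ⟨i, hi, -⟩ := hd _ hv.2.1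
      obtain ⟨w, hw⟩ := hw (D i) (hD i hi)
      refine key ⟨i, hi⟩ (near_two.mpr ⟨w, ?_, Or.inr (h.adj' ?_ ?_)⟩)
      · by_cases hvw : v = w
        · exact Or.inl hvw
        · right
          refine (h.adj v w).mpr ⟨hvw, Or.inl (rel_iff.mpr ?_)⟩
          rw [hw]
          exact Or.inr (Or.inr (Or.inl ⟨hv.1, rfl⟩))
      · rw [hs, hw]
        intro h1
        simp at h1
      · left
        rw [rel_iff, hs, hw]
        exact Or.inr (Or.inr (Or.inr (Or.inr ⟨rfl, rfl, rfl⟩)))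
    · -- elements
      obtain ⟨i, hi, hdi⟩ := hd _ hv.2.1
      obtain ⟨w, hw⟩ := hw (D i) (hD i hi)
      refine key ⟨i, hi⟩ (near_two.mpr ⟨w, Or.inr (h.adj' ?_ ?_), Or.inr (h.adj' ?_ ?_)⟩)
      · rw [hw]
        intro h1
        rw [h1] at hv
        exact absurd hv.1 (by norm_num)
      · right
        rw [rel_iff, hw]
        exact Or.inr (Or.inr (Or.inr (Or.inl ⟨rfl, hv.1, hdi⟩)))
      · rw [hs, hw]
        intro h1
        simp at h1
      · left
        rw [rel_iff, hs, hw]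
        exact Or.inr (Or.inr (Or.inr (Or.inr ⟨rfl, rfl, rfl⟩)))
    · -- `u_{a, i}`
      obtain ⟨w, hw'⟩ := h.surj (0, (φ v).2.2, 0) (Or.inl ⟨rfl, hv.2.2, rfl⟩)
      refine key ⟨_, hv.2.2⟩ (near_two.mpr ⟨w, Or.inr (h.adj' ?_ ?_), Or.inr (h.adj' ?_ ?_)⟩)
      · rw [hw']
        intro h1
        rw [h1] at hv
        exact absurd hv.1 (by norm_num)
      · right
        rw [rel_iff, hw']
        exact Or.inl ⟨rfl, hv.1, rfl⟩
      · rw [hs, hw']
        intro h1
        simp at h1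
      · left
        rw [rel_iff, hs, hw']
        exact Or.inl ⟨rfl, rfl, rfl⟩
    · -- `p_i`
      obtain ⟨w, hw'⟩ := h.surj (0, (φ v).2.1, 0) (Or.inl ⟨rfl, hv.2.1, rfl⟩)
      refine key ⟨_, hv.2.1⟩ (near_two.mpr ⟨w, Or.inr (h.adj' ?_ ?_), Or.inr (h.adj' ?_ ?_)⟩)
      · rw [hw']
        intro h1
        rw [h1] at hv
        exact absurd hv.1 (by norm_num)
      · right
        rw [rel_iff, hw']
        exact Or.inr (Or.inl ⟨rfl, hv.1, rfl⟩)
      · rw [hs, hw']
        intro h1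
        simp at h1
      · left
        rw [rel_iff, hs, hw']
        exact Or.inl ⟨rfl, rfl, rfl⟩

theorem adj_rel (h : Lay G φ n k dm) {u v : V} (huv : G.Adj u v) :
    rel dm (φ u) (φ v) = true ∨ rel dm (φ v) (φ u) = true := ((h.adj u v).mp huv).2

/-- The vertices close to a pendant. -/
theorem near_pendant (h : Lay G φ n k dm) {p s : V} (hp : (φ p).1 = 4) (hs : Near G 2 p s) :
    ((φ s).1 = 4 ∧ (φ s).2.1 = (φ p).2.1) ∨ ((φ s).1 = 0 ∧ (φ s).2.1 = (φ p).2.1) ∨
      ((φ s).1 = 3 ∧ (φ s).2.2 = (φ p).2.1) := by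
  rw [near_two] at hs
  obtain ⟨w, h1, h2⟩ := hs
  rcases h1 with rfl | h1
  · rcases h2 with rfl | h2
    · exact Or.inl ⟨hp, rfl⟩
    · have h3 := adj_rel h h2
      rw [rel_iff, rel_iff] at h3
      omega
  · have h3 := adj_rel h h1
    rw [rel_iff, rel_iff] at h3
    have h4 : (φ w).1 = 0 ∧ (φ w).2.1 = (φ p).2.1 := by omega
    rcases h2 with rfl | h2
    · exact Or.inr (Or.inl h4)
    · have h5 := adj_rel h h2
      rw [rel_iff, rel_iff] at h5
      omega

/-- The vertices close to an element. -/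
theorem near_element (h : Lay G φ n k dm) {e s : V} (he : (φ e).1 = 2) (hs : Near G 2 e s)
    (ht : (φ s).1 = 4 ∨ (φ s).1 = 0 ∨ (φ s).1 = 3) :
    (φ s).1 = 3 ∧ dm (φ s).2.1 (φ e).2.1 = true := by
  rw [near_two] at hs
  obtain ⟨w, h1, h2⟩ := hs
  rcases h1 with rfl | h1
  · rcases h2 with rfl | h2
    · omega
    · have h3 := adj_rel h h2
      rw [rel_iff, rel_iff] at h3
      omega
  · have h3 := adj_rel h h1
    rw [rel_iff, rel_iff] at h3
    have h4 : (φ w).1 = 1 ∧ dm (φ w).2.1 (φ e).2.1 = true := by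
      rcases h3 with h3 | h3
      · omega
      · rcases h3 with h3 | h3 | h3 | h3 | h3
        · omega
        · omega
        · omega
        · exact ⟨h3.1, h3.2.2⟩
        · omega
    rcases h2 with rfl | h2
    · omega
    · have h5 := adj_rel h h2
      rw [rel_iff, rel_iff] at h5
      have h6 : (φ s).1 = 3 ∧ (φ w).2.1 = (φ s).2.1 := by omega
      exact ⟨h6.1, h6.2 ▸ h4.2⟩

theorem forward [Fintype V] [DecidableEq V] (h : Lay G φ n k dm) (hk : k ≤ n)
    (hR : HasRDS G 2 k) : ∃ D : ℕ → ℕ, (∀ i < k, D i < n) ∧ ∀ e < n, ∃ i < k, dm (D i) e = true := by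
  classical
  obtain ⟨S, hS, hd⟩ := hR
  have hp : ∀ i : Fin k, ∃ p, φ p = (4, (i : ℕ), 0) := fun i =>
    h.surj _ (Or.inr (Or.inr (Or.inr (Or.inr ⟨rfl, i.2, rfl⟩))))
  choose p hp using hp
  have hs : ∀ i : Fin k, ∃ s ∈ S, Near G 2 (p i) s := fun i => hd (p i)
  choose s hsS hs using hs
  have hcase : ∀ i : Fin k, ((φ (s i)).1 = 4 ∧ (φ (s i)).2.1 = i) ∨
      ((φ (s i)).1 = 0 ∧ (φ (s i)).2.1 = i) ∨ ((φ (s i)).1 = 3 ∧ (φ (s i)).2.2 = i) := by
    intro i
    have h1 := near_pendant h (by rw [hp]) (hs i)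
    rw [hp] at h1
    exact h1
  have hinj : Function.Injective s := by
    intro i j hij
    have h1 := hcase i
    have h2 := hcase j
    rw [hij] at h1
    apply Fin.ext
    omega
  have himg : Finset.univ.image s = S := by
    apply Finset.eq_of_subset_of_card_le
    · intro x hx
      rw [Finset.mem_image] at hx
      obtain ⟨i, -, rfl⟩ := hx
      exact hsS i
    · rw [Finset.card_image_of_injective _ hinj]
      simpa using hS
  refine ⟨fun i => if hi : i < k then (if (φ (s ⟨i, hi⟩)).1 = 3 then (φ (s ⟨i, hi⟩)).2.1 else 0)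
    else 0, fun i hi => ?_, fun e he => ?_⟩
  · simp only [dif_pos hi]
    split_ifs with h3
    · have := h.mem (s ⟨i, hi⟩)
      unfold VD at this
      omega
    · omega
  · obtain ⟨v, hv⟩ := h.surj (2, e, 0) (Or.inr (Or.inr (Or.inl ⟨rfl, he, rfl⟩)))
    obtain ⟨t, ht, hvt⟩ := hd v
    rw [← himg, Finset.mem_image] at ht
    obtain ⟨i, -, rfl⟩ := ht
    have h1 := near_element h (by rw [hv]) hvt (by
      have := hcase i
      omega)
    refine ⟨i, i.2, ?_⟩
    simp only [dif_pos i.2, if_pos h1.1]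
    rw [hv] at h1
    exact h1.2

end

/-- Domination in the graph of a matrix. -/
def dmM (M : List (List Bool)) (v w : ℕ) : Bool := decide (v = w) || (entry M v w || entry M w v)

theorem dom_iff (M : List (List Bool)) (k : ℕ) :
    HasDomSet (M, k) ↔ ∃ D : ℕ → ℕ, (∀ i < min k M.length, D i < M.length) ∧
      ∀ e < M.length, ∃ i < min k M.length, dmM M (D i) e = true := by
  classical
  have hdm : ∀ v w : Fin M.length, (v = w ∨ (graphOf M).Adj v w) ↔ dmM M v w = true := by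
    intro v w
    simp only [dmM, graphOf, Bool.or_eq_true, decide_eq_true_eq, Fin.ext_iff]
    tauto
  constructor
  · rintro ⟨S, hS, hd⟩
    have h1 : S.card ≤ min k M.length := le_min hS (by simpa using Finset.card_le_univ S)
    refine ⟨fun i => if hi : i < S.toList.length then (S.toList[i] : ℕ) else 0, ?_, ?_⟩
    · intro i hi
      simp only
      split_ifs with h2
      · exact (S.toList[i]).2
      · omega
    · intro e he
      obtain ⟨v, hv, h⟩ := hd ⟨e, he⟩
      rw [← Finset.mem_toList] at hv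
      obtain ⟨i, hi, rfl⟩ := List.getElem_of_mem hv
      refine ⟨i, ?_, ?_⟩
      · rw [Finset.length_toList] at hi
        omega
      · simp only [dif_pos hi]
        exact (hdm _ ⟨e, he⟩).1 h
  · rintro ⟨D, hD, hd⟩
    refine ⟨Finset.univ.image fun i : Fin (min k M.length) => ⟨D i, hD i i.2⟩, ?_, fun w => ?_⟩
    · refine Finset.card_image_le.trans ?_
      simp
    · obtain ⟨i, hi, h⟩ := hd w w.2
      exact ⟨⟨D i, hD i hi⟩, Finset.mem_image.mpr ⟨⟨i, hi⟩, Finset.mem_univ _, rfl⟩,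
        (hdm ⟨D i, hD i hi⟩ w).2 h⟩

/-- The reduction. -/
def rdc (x : List (List Bool) × ℕ) : Inst :=
  (mtxOf (vl x.1.length (min x.2 x.1.length)) (rel (dmM x.1)),
    (vl x.1.length (min x.2 x.1.length)).map (fun d => decide (d.1 = 0)), min x.2 x.1.length)

theorem lay (n k : ℕ) (dm : ℕ → ℕ → Bool) :
    Lay (graphOf (mtxOf (vl n k) (rel dm))) (phi (vl n k) (rel dm)) n k dm :=
  ⟨phi_inj (nodup_vl n k) _, adj_mtxOf _ _, fun u => mem_vl.mp (phi_mem _ _ u),
    fun _ hd => phi_surj _ (mem_vl.mpr hd)⟩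

theorem mem_setOf (n k : ℕ) (dm : ℕ → ℕ → Bool) (u : Fin (mtxOf (vl n k) (rel dm)).length) :
    u ∈ setOf (mtxOf (vl n k) (rel dm)).length ((vl n k).map (fun d => decide (d.1 = 0))) ↔
      (phi (vl n k) (rel dm) u).1 = 0 := by
  have hu : (u : ℕ) < (vl n k).length := u.2.trans_eq (mtxOf_length _ _)
  rw [setOf, Finset.mem_filter]
  simp only [Finset.mem_univ, true_and]
  rw [List.getD_eq_getElem _ _ (by rw [List.length_map]; exact hu), List.getElem_map,
    decide_eq_true_eq]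
  rfl

theorem rdc_iff (x : List (List Bool) × ℕ) : HasDomSet x ↔
    (IsModulator (graphOf (rdc x).1) (setOf (rdc x).1.length (rdc x).2.1 :
      Set (Fin (rdc x).1.length)) ∧ HasRDS (graphOf (rdc x).1) 2 (rdc x).2.2) := by
  obtain ⟨M, k⟩ := x
  rw [dom_iff]
  have h := lay M.length (min k M.length) (dmM M)
  have hX : IsModulator (graphOf (rdc (M, k)).1) (setOf (rdc (M, k)).1.length (rdc (M, k)).2.1 :
      Set (Fin (rdc (M, k)).1.length)) := by
    have h1 := modulator_lay h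
    have e : ((setOf (rdc (M, k)).1.length (rdc (M, k)).2.1 : Finset _) :
        Set (Fin (rdc (M, k)).1.length)) =
        {u | (phi (vl M.length (min k M.length)) (rel (dmM M)) u).1 = 0} := by
      ext u
      exact mem_setOf _ _ _ u
    rw [e]
    exact h1
  constructor
  · rintro ⟨D, hD, hd⟩
    exact ⟨hX, backward h hD hd⟩
  · rintro ⟨-, hR⟩
    exact forward h (min_le_right _ _) hR

theorem card_le (n k : ℕ) (dm : ℕ → ℕ → Bool) :
    (setOf (mtxOf (vl n k) (rel dm)).length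
      ((vl n k).map (fun d => decide (d.1 = 0)))).card ≤ k := by
  have h := lay n k dm
  refine le_trans (Finset.card_le_card_of_injOn (t := Finset.range k)
    (fun u => (phi (vl n k) (rel dm) u).2.1) ?_ ?_) (Finset.card_range k).le
  · intro u hu
    have hu' := Finset.mem_coe.mp hu
    rw [mem_setOf] at hu'
    rw [Finset.mem_coe, Finset.mem_range]
    have := h.mem u
    unfold VD at this
    simp only
    omega
  · intro u hu v hv huv
    have hu' := Finset.mem_coe.mp hu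
    have hv' := Finset.mem_coe.mp hv
    rw [mem_setOf] at hu' hv'
    apply h.inj
    have h1 := h.mem u
    have h2 := h.mem v
    unfold VD at h1 h2
    refine Prod.ext (by omega) (Prod.ext huv (by omega))

end Q224.RD

namespace Pool.Agent.NPC.Q224RD

open _root_.Q224.RD Pool.Agent.NPC.H628F Pool.Agent.H628R2.Forb Pool.Agent.H633R2

variable {α : Type} [TEnc α]

theorem p_dmM {M : α → List (List Bool)} {i j : α → ℕ} (hM : Poly M) (hi : Poly i)
    (hj : Poly j) : Poly (fun a => dmM (M a) (i a) (j a)) := by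
  unfold dmM
  exact Poly.or (Poly.decide_eq hi hj) (Poly.or (p_entry hM hi hj) (p_entry hM hj hi))

theorem p_rel {M : α → List (List Bool)} {d e : α → Cd} (hM : Poly M) (hd : Poly d)
    (he : Poly e) : Poly (fun a => rel (dmM (M a)) (d a) (e a)) := by
  unfold rel
  have d1 := Poly.fst hd
  have d2 := Poly.fst (Poly.snd hd)
  have e1 := Poly.fst he
  have e2 := Poly.fst (Poly.snd he)
  have e3 := Poly.snd (Poly.snd he)
  have c := fun m : ℕ => Poly.decide_eq d1 (Poly.const m)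
  have c' := fun m : ℕ => Poly.decide_eq e1 (Poly.const m)
  exact Poly.or (Poly.or (Poly.or (Poly.or (Poly.and (Poly.and (c 0) (c' 3)) (Poly.decide_eq d2 e3))
    (Poly.and (Poly.and (c 0) (c' 4)) (Poly.decide_eq d2 e2))) (Poly.and (c 1) (c' 1)))
    (Poly.and (Poly.and (c 1) (c' 2)) (p_dmM hM d2 e2)))
    (Poly.and (Poly.and (c 1) (c' 3)) (Poly.decide_eq d2 e2))

theorem p_vl {n k : α → ℕ} (hn : UPoly n) (hk : UPoly k) : Poly (fun a => vl (n a) (k a)) := by
  unfold vl
  refine Poly.append ?_ (Poly.append ?_ (Poly.append ?_ (Poly.append ?_ ?_)))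
  · exact Poly.map (F := fun (_ : α) (i : ℕ) => ((0, i, 0) : Cd)) hk.range
      (Poly.pair (Poly.const 0) (Poly.pair p_snd (Poly.const 0)))
  · exact Poly.map (F := fun (_ : α) (i : ℕ) => ((1, i, 0) : Cd)) hn.range
      (Poly.pair (Poly.const 1) (Poly.pair p_snd (Poly.const 0)))
  · exact Poly.map (F := fun (_ : α) (i : ℕ) => ((2, i, 0) : Cd)) hn.range
      (Poly.pair (Poly.const 2) (Poly.pair p_snd (Poly.const 0)))
  · refine Poly.flatMap (F := fun (a : α) (v : ℕ) => (List.range (k a)).map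
      fun i => ((3, v, i) : Cd)) hn.range ?_
    exact Poly.map (F := fun (a : α × ℕ) (i : ℕ) => ((3, a.2, i) : Cd)) (hk.comp p_fst).range
      (Poly.pair (Poly.const 3) (Poly.pair (Poly.snd p_fst) p_snd))
  · exact Poly.map (F := fun (_ : α) (i : ℕ) => ((4, i, 0) : Cd)) hk.range
      (Poly.pair (Poly.const 4) (Poly.pair p_snd (Poly.const 0)))

theorem p_rdc : Poly rdc := by
  have hM : Poly (fun x : List (List Bool) × ℕ => x.1) := p_fst
  have hn : UPoly (fun x : List (List Bool) × ℕ => x.1.length) := UPoly.length hM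
  have hk : UPoly (fun x : List (List Bool) × ℕ => min x.2 x.1.length) :=
    UPoly.of_le (Poly.min p_snd hn.toPoly) hn (fun _ => min_le_right _ _)
  have hv := p_vl hn hk
  unfold rdc
  refine Poly.pair ?_ (Poly.pair ?_ hk.toPoly)
  · unfold mtxOf
    refine Poly.map (F := fun (x : List (List Bool) × ℕ) (d : Cd) =>
      (vl x.1.length (min x.2 x.1.length)).map fun e => rel (dmM x.1) d e) hv ?_
    refine Poly.map (F := fun (x : (List (List Bool) × ℕ) × Cd) (e : Cd) =>
      rel (dmM x.1.1) x.2 e) (hv.comp p_fst) ?_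
    exact p_rel (hM.comp (Poly.fst p_fst)) (Poly.snd p_fst) p_snd
  · exact Poly.map (F := fun (x : List (List Bool) × ℕ) (d : Cd) => decide (d.1 = 0)) hv
      (Poly.decide_eq (Poly.fst p_snd) (Poly.const 0))

theorem w2Hard : W2Hard kap (RDomSVD 2) := by
  intro α _ κ P hP
  refine FptReduces.trans hP ⟨rdc, fun n => n, FptTime.of_poly p_rdc, Computable.id,
    fun x => ⟨rdc_iff x, ?_⟩⟩
  exact (card_le _ _ _).trans (min_le_left _ _)

end Pool.Agent.NPC.Q224RD
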