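import Pool.Agent.Q224.RD.Near

/-!
# The normal form of the solutions
-/

set_option autoImplicit false

namespace Q224.RD

set_option linter.unusedSectionVars false

variable {V : Type*} [Fintype V] [DecidableEq V]

/-- There is an `r`-dominating set with at most `l` vertices. -/
def HasRDS (G : SimpleGraph V) (r l : ℕ) : Prop :=
  ∃ S : Finset V, S.card ≤ l ∧ ∀ v, ∃ s ∈ S, Near G r v s

open Classical in
/-- The isolated vertices. -/
noncomputable def iso (G : SimpleGraph V) : Finset V := Finset.univ.filter fun v => ¬ ∃ y, G.Adj v y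

theorem mem_iso {G : SimpleGraph V} {v : V} : v ∈ iso G ↔ ¬ ∃ y, G.Adj v y := by
  classical
  simp [iso]

theorem near_iso {G : SimpleGraph V} {v s : V} {r : ℕ} (hv : v ∈ iso G) (h : Near G r v s) :
    v = s := by
  rw [mem_iso] at hv
  induction r with
  | zero => exact h
  | succ r ih =>
    obtain ⟨w, h1, h2⟩ := h
    rcases h1 with rfl | h1
    · exact ih h2
    · exact absurd ⟨w, h1⟩ hv

theorem hasRDS_iff (G : SimpleGraph V) (r l : ℕ) : HasRDS G r l ↔ (iso G).card ≤ l ∧
    ∃ T : List V, T.length + (iso G).card ≤ l ∧ (∀ t ∈ T, t ∉ iso G) ∧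
      ∀ v, v ∉ iso G → ∃ s ∈ T, Near G r v s := by
  constructor
  · rintro ⟨S, hS, hd⟩
    have h1 : iso G ⊆ S := by
      intro v hv
      obtain ⟨s, hs, h⟩ := hd v
      rwa [near_iso hv h]
    refine ⟨(Finset.card_le_card h1).trans hS, (S \ iso G).toList, ?_, ?_, ?_⟩
    · rw [Finset.length_toList, Finset.card_sdiff_add_card_eq_card h1]
      exact hS
    · intro t ht
      rw [Finset.mem_toList, Finset.mem_sdiff] at ht
      exact ht.2
    · intro v hv
      obtain ⟨s, hs, h⟩ := hd v
      refine ⟨s, ?_, h⟩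
      rw [Finset.mem_toList, Finset.mem_sdiff]
      refine ⟨hs, fun h2 => hv ?_⟩
      rwa [← near_iso h2 h.symm]
  · rintro ⟨h1, T, hT, -, hd⟩
    refine ⟨iso G ∪ T.toFinset, ?_, fun v => ?_⟩
    · have h2 := Finset.card_union_le (iso G) T.toFinset
      have h3 := T.toFinset_card_le
      omega
    · by_cases hv : v ∈ iso G
      · exact ⟨v, Finset.mem_union_left _ hv, Near.refl _ _ _⟩
      · obtain ⟨s, hs, h⟩ := hd v hv
        exact ⟨s, Finset.mem_union_right _ (List.mem_toFinset.mpr hs), h⟩

theorem yes_case {G : SimpleGraph V} {X : Finset V} {r l : ℕ} (hr : 2 ≤ r)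
    (hX : IsModulator G (X : Set V)) (h : (iso G).card + X.card + 1 ≤ l) : HasRDS G r l := by
  rw [isModulator_iff] at hX
  obtain ⟨K, h1, h2, h3⟩ := hX
  have key : ∃ A : Finset V, A.card ≤ 1 ∧ ∀ v ∈ Mid G (X : Set V), ∃ a ∈ A, Near G 2 v a := by
    by_cases hK : ∃ a, a ∈ K
    · obtain ⟨a, ha⟩ := hK
      exact ⟨{a}, by simp, fun v hv => ⟨a, Finset.mem_singleton_self a, near_clique h2 h3 hv ha⟩⟩
    · refine ⟨∅, by simp, fun v hv => ?_⟩
      obtain ⟨a, ha, -⟩ := mid_near h3 hv
      exact absurd ⟨a, ha⟩ hK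
  obtain ⟨A, hA, hA'⟩ := key
  refine ⟨iso G ∪ X ∪ A, ?_, fun v => ?_⟩
  · have h4 := Finset.card_union_le (iso G ∪ X) A
    have h5 := Finset.card_union_le (iso G) X
    omega
  · by_cases hv : v ∈ iso G
    · exact ⟨v, by simp [hv], Near.refl _ _ _⟩
    · by_cases hvX : v ∈ X
      · exact ⟨v, by simp [hvX], Near.refl _ _ _⟩
      · rw [mem_iso, not_not] at hv
        obtain ⟨y, hy⟩ := hv
        by_cases hyX : y ∈ X
        · exact ⟨y, by simp [hyX], (Near.one hy).mono (by omega)⟩
        · obtain ⟨a, ha, h6⟩ := hA' v ⟨hvX, y, hyX, hy⟩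
          exact ⟨a, by simp [ha], h6.mono hr⟩

theorem hasRDS_iff_rep {G : SimpleGraph V} {X : Finset V} {r l : ℕ} (hr : 3 ≤ r)
    (hX : IsModulator G (X : Set V)) (rep : V → V) (hrep : ∀ s, Same G (X : Set V) r s (rep s)) :
    HasRDS G r l ↔ (iso G).card + X.card + 1 ≤ l ∨ ((iso G).card ≤ l ∧
      ∃ T : List V, T.length ≤ X.card ∧ T.length + (iso G).card ≤ l ∧ (∀ t ∈ T, ∃ s, t = rep s) ∧
      ∀ v, v ∉ iso G → ∃ s ∈ T, Near G r v s) := by
  constructor
  · intro h
    by_cases h0 : (iso G).card + X.card + 1 ≤ l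
    · exact Or.inl h0
    · right
      rw [hasRDS_iff] at h
      obtain ⟨h1, T, hT, -, hd⟩ := h
      refine ⟨h1, T.map rep, ?_, ?_, ?_, ?_⟩
      · rw [List.length_map]
        omega
      · rw [List.length_map]
        exact hT
      · intro t ht
        rw [List.mem_map] at ht
        obtain ⟨s, -, rfl⟩ := ht
        exact ⟨s, rfl⟩
      · intro v hv
        obtain ⟨s, hs, h⟩ := hd v hv
        refine ⟨rep s, List.mem_map_of_mem hs, exchange hr (near_mid hX) ?_ (hrep s) h⟩
        rw [mem_iso, not_not] at hv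
        exact hv
  · rintro (h | ⟨h1, T, -, hT, -, hd⟩)
    · exact yes_case (by omega) hX h
    · refine ⟨iso G ∪ T.toFinset, ?_, fun v => ?_⟩
      · have h2 := Finset.card_union_le (iso G) T.toFinset
        have h3 := T.toFinset_card_le
        omega
      · by_cases hv : v ∈ iso G
        · exact ⟨v, Finset.mem_union_left _ hv, Near.refl _ _ _⟩
        · obtain ⟨s, hs, h⟩ := hd v hv
          exact ⟨s, Finset.mem_union_right _ (List.mem_toFinset.mpr hs), h⟩

/-! ### Recognizing split modulators -/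

open Classical in
/-- The degree outside `X`. -/
noncomputable def deg' (G : SimpleGraph V) (X : Finset V) (v : V) : ℕ :=
  (Finset.univ.filter fun w => w ∉ X ∧ G.Adj v w).card

/-- The conditions on the clique. -/
def Good (G : SimpleGraph V) (X K : Finset V) : Prop :=
  (∀ v ∈ K, v ∉ X) ∧ (∀ u ∈ K, ∀ v ∈ K, u ≠ v → G.Adj u v) ∧
    ∀ u v, u ∉ X → v ∉ X → u ∉ K → v ∉ K → ¬ G.Adj u v

theorem isModulator_iff_good (G : SimpleGraph V) (X : Finset V) :
    IsModulator G (X : Set V) ↔ ∃ K, Good G X K := by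
  classical
  rw [isModulator_iff]
  constructor
  · rintro ⟨K, h1, h2, h3⟩
    refine ⟨Finset.univ.filter (· ∈ K), ?_, ?_, ?_⟩
    · intro v hv
      exact h1 v (by simpa using hv)
    · intro u hu v hv
      exact h2 u (by simpa using hu) v (by simpa using hv)
    · intro u v hu hv hu' hv'
      exact h3 u v hu hv (by simpa using hu') (by simpa using hv')
  · rintro ⟨K, h1, h2, h3⟩
    exact ⟨K, h1, h2, h3⟩

theorem good_threshold {G : SimpleGraph V} {X : Finset V} (h : ∃ K, Good G X K) :
    ∃ t ≤ Fintype.card V, ∃ u : Option V, ∃ K, Good G X K ∧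
      ∀ v, v ∈ K ↔ v ∉ X ∧ (t ≤ deg' G X v ∨ some v = u) := by
  classical
  obtain ⟨K, hK, hmax⟩ : ∃ K, Good G X K ∧ ∀ K', Good G X K' → K'.card ≤ K.card := by
    obtain ⟨K, hK, hm⟩ := Finset.exists_max_image (Finset.univ.filter fun K => Good G X K)
      Finset.card (by
        obtain ⟨K, hK⟩ := h
        exact ⟨K, by simpa using hK⟩)
    refine ⟨K, by simpa using hK, fun K' hK' => hm K' (by simpa using hK')⟩
  have hcard : K.card ≤ Fintype.card V := Finset.card_le_univ K
  have hin : ∀ v ∈ K, K.card - 1 ≤ deg' G X v := by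
    intro v hv
    rw [← Finset.card_erase_of_mem hv]
    apply Finset.card_le_card
    intro w hw
    rw [Finset.mem_erase] at hw
    simp only [Finset.mem_filter, Finset.mem_univ, true_and]
    exact ⟨hK.1 w hw.2, hK.2.1 v hv w hw.2 hw.1.symm⟩
  -- a vertex outside `K` misses a vertex of `K`
  have hout : ∀ v, v ∉ X → v ∉ K → ∃ u ∈ K, ¬ G.Adj v u := by
    intro v hv hvK
    by_contra hcon
    push Not at hcon
    have h1 := hmax (insert v K) ⟨?_, ?_, ?_⟩
    · rw [Finset.card_insert_of_notMem hvK] at h1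
      omega
    · intro w hw
      rcases Finset.mem_insert.mp hw with rfl | hw
      · exact hv
      · exact hK.1 w hw
    · intro u hu w hw hne
      rcases Finset.mem_insert.mp hu with hu1 | hu1
      · rcases Finset.mem_insert.mp hw with hw1 | hw1
        · exact absurd (hu1.trans hw1.symm) hne
        · exact hu1 ▸ hcon w hw1
      · rcases Finset.mem_insert.mp hw with hw1 | hw1
        · exact hw1 ▸ (hcon u hu1).symm
        · exact hK.2.1 u hu1 w hw1 hne
    · intro u w hu hw hu' hw'
      rw [Finset.mem_insert, not_or] at hu' hw'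
      exact hK.2.2 u w hu hw hu'.2 hw'.2
  have hdeg : ∀ v, v ∉ X → v ∉ K → ∀ u ∈ K, ¬ G.Adj v u → deg' G X v ≤ (K.erase u).card := by
    intro v hv hvK u hu hvu
    apply Finset.card_le_card
    intro w hw
    simp only [Finset.mem_filter, Finset.mem_univ, true_and] at hw
    rw [Finset.mem_erase]
    refine ⟨fun h => hvu (h ▸ hw.2), ?_⟩
    by_contra hwK
    exact hK.2.2 v w hv hw.1 hvK hwK hw.2
  by_cases hB : ∃ v, v ∉ X ∧ v ∉ K ∧ K.card - 1 ≤ deg' G X v
  · obtain ⟨v, hv, hvK, hvd⟩ := hB
    obtain ⟨u, hu, hvu⟩ := hout v hv hvK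
    refine ⟨K.card, hcard, some u, K, hK, fun w => ?_⟩
    have hpos : 0 < K.card := Finset.card_pos.mpr ⟨u, hu⟩
    constructor
    · intro hw
      refine ⟨hK.1 w hw, ?_⟩
      by_cases hwu : w = u
      · right; rw [hwu]
      · left
        -- `w` is adjacent to `v`
        have hvw : G.Adj v w := by
          by_contra hvw
          -- then `v` misses two vertices
          have h5 : deg' G X v ≤ ((K.erase u).erase w).card := by
            apply Finset.card_le_card
            intro y hy
            simp only [Finset.mem_filter, Finset.mem_univ, true_and] at hy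
            rw [Finset.mem_erase, Finset.mem_erase]
            refine ⟨fun h => hvw (h ▸ hy.2), fun h => hvu (h ▸ hy.2), ?_⟩
            by_contra hyK
            exact hK.2.2 v y hv hy.1 hvK hyK hy.2
          rw [Finset.card_erase_of_mem (Finset.mem_erase.mpr ⟨hwu, hw⟩),
            Finset.card_erase_of_mem hu] at h5
          have h6 : 1 < K.card := Finset.one_lt_card.mpr ⟨w, hw, u, hu, hwu⟩
          omega
        have h7 : K.card = (insert v (K.erase w)).card := by
          rw [Finset.card_insert_of_notMem (fun h => hvK (Finset.mem_of_mem_erase h)),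
            Finset.card_erase_of_mem hw]
          omega
        rw [h7]
        apply Finset.card_le_card
        intro y hy
        simp only [Finset.mem_filter, Finset.mem_univ, true_and]
        rcases Finset.mem_insert.mp hy with rfl | hy
        · exact ⟨hv, hvw.symm⟩
        · rw [Finset.mem_erase] at hy
          exact ⟨hK.1 y hy.2, hK.2.1 w hw y hy.2 hy.1.symm⟩
    · rintro ⟨hwX, h8⟩
      by_contra hwK
      rcases h8 with h8 | h8
      · obtain ⟨z, hz, hwz⟩ := hout w hwX hwK
        have h9 := hdeg w hwX hwK z hz hwz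
        rw [Finset.card_erase_of_mem hz] at h9
        omega
      · exact hwK (Option.some_injective _ h8 ▸ hu)
  · push Not at hB
    refine ⟨K.card - 1, by omega, none, K, hK, fun w => ?_⟩
    constructor
    · intro hw
      exact ⟨hK.1 w hw, Or.inl (hin w hw)⟩
    · rintro ⟨hwX, h8 | h8⟩
      · by_contra hwK
        have := hB w hwX hwK
        omega
      · exact absurd h8 (by simp)

end Q224.RD
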