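import Pool.Agent.Q224.RD.Mtx
import Pool.Agent.Q224.RD.Time

/-!
# Membership in W[2] for `r = 2`
-/

set_option autoImplicit false

namespace Q224.RD

open Pool.Agent.H633R2

/-- The list of the vertices that are not isolated. -/
def nsB (M : List (List Bool)) : List ℕ := (List.range M.length).filter fun v => !isoB M v

theorem nsB_nodup (M : List (List Bool)) : (nsB M).Nodup := List.nodup_range.filter _

/-- The reduction to Dominating Set. -/
def toDom (x : Inst) : List (List Bool) × ℕ :=
  bif !modB x.1 x.2.1 || decide (x.2.2 < cB x.1) then ([[false]], 0) else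
    bif decide (cB x.1 + (xsB x.1 x.2.1).length + 1 ≤ x.2.2) then ([], 0) else
      (mtxOf (nsB x.1) (reachB x.1 2), x.2.2 - cB x.1)

theorem not_dom : ¬ HasDomSet ([[false]], 0) := by
  rintro ⟨S, hS, h⟩
  obtain ⟨v, hv, -⟩ := h ⟨0, by simp⟩
  simp only [Nat.le_zero, Finset.card_eq_zero] at hS
  rw [hS] at hv
  simp at hv

theorem dom_nil : HasDomSet ([], 0) := ⟨∅, by simp, fun w => absurd w.2 (by simp)⟩

theorem toDom_iff (x : Inst) :
    (IsModulator (graphOf x.1) (setOf x.1.length x.2.1 : Set (Fin x.1.length)) ∧
      HasRDS (graphOf x.1) 2 x.2.2) ↔ HasDomSet (toDom x) := by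
  unfold toDom
  by_cases hX : IsModulator (graphOf x.1) (setOf x.1.length x.2.1 : Set (Fin x.1.length))
  · rw [modB_iff.mpr hX, Bool.not_true, Bool.false_or]
    by_cases h1 : x.2.2 < cB x.1
    · rw [decide_eq_true h1, cond_true]
      refine iff_of_false ?_ not_dom
      rintro ⟨-, h⟩
      rw [hasRDS_iff, ← cB_eq] at h
      omega
    · rw [decide_eq_false h1, cond_false]
      by_cases h2 : cB x.1 + (xsB x.1 x.2.1).length + 1 ≤ x.2.2
      · rw [decide_eq_true h2, cond_true]
        refine iff_of_true ⟨hX, yes_case le_rfl hX ?_⟩ dom_nil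
        rwa [← cB_eq, ← xsB_length]
      · rw [decide_eq_false h2, cond_false, hasDomSet_mtxOf (nsB_nodup x.1),
          hasRDS_iff, ← cB_eq]
        constructor
        · rintro ⟨-, -, T, h3, h4, h5⟩
          refine ⟨T.map Fin.val, ?_, ?_, ?_⟩
          · rw [List.length_map]
            omega
          · intro t ht
            rw [List.mem_map] at ht
            obtain ⟨t, ht, rfl⟩ := ht
            rw [nsB, List.mem_filter, List.mem_range]
            refine ⟨t.2, ?_⟩
            rw [Bool.not_eq_true', ← Bool.not_eq_true, isoB_iff]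
            exact h4 t ht
          · intro v hv
            rw [nsB, List.mem_filter, List.mem_range] at hv
            have h6 : (⟨v, hv.1⟩ : Fin x.1.length) ∉ iso (graphOf x.1) := by
              rw [← isoB_iff]
              simpa using hv.2
            obtain ⟨s, hs, h7⟩ := h5 _ h6
            refine ⟨s, List.mem_map_of_mem hs, Or.inr (Or.inr ?_)⟩
            exact reachB_iff (u := ⟨v, hv.1⟩) (v := s) |>.mpr h7
        · rintro ⟨T, h3, h4, h5⟩
          obtain ⟨T', rfl⟩ := exists_lift (fun t ht => by
            have := h4 t ht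
            rw [nsB, List.mem_filter, List.mem_range] at this
            exact this.1)
          refine ⟨hX, by omega, T', ?_, ?_, ?_⟩
          · rw [List.length_map] at h3
            omega
          · intro t ht
            have := h4 t (List.mem_map_of_mem ht)
            rw [nsB, List.mem_filter, Bool.not_eq_true', ← Bool.not_eq_true, isoB_iff] at this
            exact this.2
          · intro v hv
            obtain ⟨s, hs, h⟩ := h5 v (by
              rw [nsB, List.mem_filter, List.mem_range, Bool.not_eq_true', ← Bool.not_eq_true,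
                isoB_iff]
              exact ⟨v.2, hv⟩)
            rw [List.mem_map] at hs
            obtain ⟨s, hs, rfl⟩ := hs
            refine ⟨s, hs, ?_⟩
            rw [reachB_iff, reachB_iff, ← Fin.ext_iff] at h
            rcases h with rfl | h | h
            · exact Near.refl _ _ _
            · exact h.symm
            · exact h
  · have h0 : modB x.1 x.2.1 = false := by
      rw [← Bool.not_eq_true, modB_iff]
      exact hX
    rw [h0, Bool.not_false, Bool.true_or, cond_true]
    exact iff_of_false (fun h => hX h.1) not_dom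

theorem toDom_le (x : Inst) : (toDom x).2 ≤ (xsB x.1 x.2.1).length := by
  unfold toDom
  cases !modB x.1 x.2.1 || decide (x.2.2 < cB x.1)
  · rw [cond_false]
    by_cases h2 : cB x.1 + (xsB x.1 x.2.1).length + 1 ≤ x.2.2
    · rw [decide_eq_true h2, cond_true]
      exact Nat.zero_le _
    · rw [decide_eq_false h2, cond_false]
      simp only
      omega
  · rw [cond_true]
    exact Nat.zero_le _

end Q224.RD

namespace Pool.Agent.NPC.Q224RD

open _root_.Q224.RD Pool.Agent.NPC.H628F Pool.Agent.H628R2.Forb Pool.Agent.H633R2

variable {α : Type} [TEnc α]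

theorem p_toDom : Poly toDom := by
  have hM : Poly (fun x : Inst => x.1) := p_fst
  have hB : Poly (fun x : Inst => x.2.1) := Poly.fst p_snd
  have hl : Poly (fun x : Inst => x.2.2) := Poly.snd p_snd
  have hc := (p_cB hM).toPoly
  have hns : Poly (fun x : Inst => nsB x.1) := by
    unfold nsB
    exact Poly.filter (p := fun (x : Inst) (v : ℕ) => !isoB x.1 v) (UPoly.length hM).range
      (Poly.not (p_isoB (hM.comp p_fst) p_snd))
  unfold toDom
  refine Poly.cond (Poly.or (Poly.not (p_modB hM hB)) (Poly.decide_lt hl hc)) (Poly.const _)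
    (Poly.cond (Poly.decide_le (Poly.add (Poly.add hc (Poly.length (p_xsB hM hB)))
      (Poly.const 1)) hl) (Poly.const _) (Poly.pair ?_ (Poly.sub hl hc)))
  unfold mtxOf
  refine Poly.map (F := fun (x : Inst) (d : ℕ) => (nsB x.1).map fun e => reachB x.1 2 d e)
    hns ?_
  refine Poly.map (F := fun (x : Inst × ℕ) (e : ℕ) => reachB x.1.1 2 x.2 e) (hns.comp p_fst) ?_
  exact p_reachB 2 (hM.comp (Poly.fst p_fst)) (Poly.snd p_fst) p_snd

theorem inW2 : InW2 kap (RDomSVD 2) := by
  refine ⟨toDom, fun n => n, FptTime.of_poly p_toDom, Computable.id, fun x => ⟨toDom_iff x, ?_⟩⟩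
  rw [kap_eq]
  exact toDom_le x

end Pool.Agent.NPC.Q224RD
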