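import Mathlib

/-!
# Distances and the exchange argument
-/

set_option autoImplicit false

namespace Q224.RD

variable {V : Type*}

/-- `Near G r u v`: there is a walk with at most `r` edges. -/
def Near (G : SimpleGraph V) : ℕ → V → V → Prop
  | 0, u, v => u = v
  | r + 1, u, v => ∃ w, (u = w ∨ G.Adj u w) ∧ Near G r w v

theorem near_iff (G : SimpleGraph V) (r : ℕ) (u v : V) : Near G r u v ↔ G.edist u v ≤ r := by
  constructor
  · intro h
    induction r generalizing u with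
    | zero =>
      have : u = v := h
      rw [this, SimpleGraph.edist_self]
      exact bot_le
    | succ r ih =>
      obtain ⟨w, h1, h2⟩ := h
      have h3 := ih w h2
      have h4 : G.edist u w ≤ 1 := by
        rcases h1 with rfl | h1
        · rw [SimpleGraph.edist_self]; exact bot_le
        · have := SimpleGraph.edist_le h1.toWalk
          simpa using this
      calc G.edist u v ≤ G.edist u w + G.edist w v := SimpleGraph.edist_triangle
        _ ≤ 1 + r := add_le_add h4 h3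
        _ = ((r + 1 : ℕ) : ℕ∞) := by push_cast; exact add_comm _ _
  · intro h
    have hne : G.edist u v ≠ ⊤ := fun h1 => by
      rw [h1] at h
      exact ENat.natCast_ne_top r (top_le_iff.mp h)
    obtain ⟨p, hp⟩ := (SimpleGraph.edist_ne_top_iff_reachable.mp hne).exists_walk_length_eq_edist
    rw [← hp] at h
    have h1 : p.length ≤ r := by exact_mod_cast h
    clear h hp hne
    induction r generalizing u with
    | zero =>
      have : p.length = 0 := by omega
      exact SimpleGraph.Walk.eq_of_length_eq_zero this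
    | succ r ih =>
      cases p with
      | nil => exact ⟨_, Or.inl rfl, ih _ SimpleGraph.Walk.nil (by simp)⟩
      | cons h p =>
        rw [SimpleGraph.Walk.length_cons] at h1
        exact ⟨_, Or.inr h, ih _ p (by omega)⟩

theorem Near.mono {G : SimpleGraph V} {r r' : ℕ} (h : r ≤ r') {u v : V} (hr : Near G r u v) :
    Near G r' u v := by
  rw [near_iff] at *
  exact hr.trans (by exact_mod_cast h)

theorem Near.symm {G : SimpleGraph V} {r : ℕ} {u v : V} (hr : Near G r u v) : Near G r v u := by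
  rw [near_iff] at *
  rwa [SimpleGraph.edist_comm]

theorem Near.refl (G : SimpleGraph V) (r : ℕ) (u : V) : Near G r u u := by
  rw [near_iff, SimpleGraph.edist_self]
  exact bot_le

theorem Near.trans {G : SimpleGraph V} {i j : ℕ} {u v w : V} (h1 : Near G i u v)
    (h2 : Near G j v w) : Near G (i + j) u w := by
  rw [near_iff] at *
  calc G.edist u w ≤ G.edist u v + G.edist v w := SimpleGraph.edist_triangle
    _ ≤ i + j := add_le_add h1 h2
    _ = ((i + j : ℕ) : ℕ∞) := by push_cast; rfl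

theorem Near.one {G : SimpleGraph V} {u v : V} (h : G.Adj u v) : Near G 1 u v :=
  ⟨v, Or.inr h, rfl⟩

theorem Near.one' {G : SimpleGraph V} {u v : V} (h : u = v ∨ G.Adj u v) : Near G 1 u v :=
  ⟨v, h, rfl⟩

/-- The vertices outside `X` that have a neighbour outside `X`. -/
def Mid (G : SimpleGraph V) (X : Set V) : Set V := {v | v ∉ X ∧ ∃ w, w ∉ X ∧ G.Adj v w}

/-- Split graphs. -/
def IsSplit (G : SimpleGraph V) : Prop :=
  ∃ K I : Set V, K ∪ I = Set.univ ∧ K ∩ I = ∅ ∧ G.IsClique K ∧ G.IsIndepSet I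

/-- `X` is a split modulator. -/
def IsModulator (G : SimpleGraph V) (X : Set V) : Prop := IsSplit (G.induce Xᶜ)

theorem isModulator_iff (G : SimpleGraph V) (X : Set V) : IsModulator G X ↔
    ∃ K : Set V, (∀ v ∈ K, v ∉ X) ∧ (∀ u ∈ K, ∀ v ∈ K, u ≠ v → G.Adj u v) ∧
      ∀ u v, u ∉ X → v ∉ X → u ∉ K → v ∉ K → ¬ G.Adj u v := by
  constructor
  · rintro ⟨K, I, h1, h2, h3, h4⟩
    refine ⟨Subtype.val '' K, ?_, ?_, ?_⟩
    · rintro _ ⟨v, -, rfl⟩
      exact v.2
    · rintro _ ⟨u, hu, rfl⟩ _ ⟨v, hv, rfl⟩ hne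
      exact h3 hu hv (fun h => hne (congrArg _ h))
    · intro u v hu hv hu' hv' hadj
      have e : ∀ w (hw : w ∉ X), w ∉ Subtype.val '' K → (⟨w, hw⟩ : (Xᶜ : Set V)) ∈ I := by
        intro w hw hw'
        have : (⟨w, hw⟩ : (Xᶜ : Set V)) ∈ K ∪ I := h1 ▸ Set.mem_univ _
        rcases this with h | h
        · exact absurd ⟨_, h, rfl⟩ hw'
        · exact h
      exact h4 (e u hu hu') (e v hv hv') (fun h => hadj.ne (congrArg Subtype.val h)) hadj
  · rintro ⟨K, h1, h2, h3⟩
    refine ⟨{v | (v : V) ∈ K}, {v | (v : V) ∉ K}, ?_, ?_, ?_, ?_⟩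
    · ext v
      simp only [Set.mem_union, Set.mem_ofPred_eq, Set.mem_univ, iff_true]
      exact em _
    · ext v
      simp
    · intro u hu v hv hne
      exact h2 u hu v hv (fun h => hne (Subtype.ext h))
    · intro u hu v hv hne
      exact h3 u v u.2 v.2 hu hv

/-- If there is no path from `v` to `s` of length at most `r` through `X`, then both are outside
`X`. -/
theorem near_cases {G : SimpleGraph V} {X : Set V} {r : ℕ} {v s : V} (h : Near G r v s) :
    (∃ x ∈ X, ∃ i j, i + j ≤ r ∧ Near G i v x ∧ Near G j x s) ∨ (v = s ∧ v ∉ X) ∨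
      (v ∈ Mid G X ∧ s ∈ Mid G X) := by
  induction r generalizing v with
  | zero =>
    have h0 : v = s := h
    by_cases hv : v ∈ X
    · exact Or.inl ⟨v, hv, 0, 0, le_rfl, rfl, h0⟩
    · exact Or.inr (Or.inl ⟨h0, hv⟩)
  | succ r ih =>
    obtain ⟨w, h1, h2⟩ := h
    have h3 := ih h2
    rcases h1 with rfl | h1
    · rcases h3 with ⟨x, hx, i, j, hij, h4⟩ | h3
      · exact Or.inl ⟨x, hx, i, j, by omega, h4⟩
      · exact Or.inr h3
    · by_cases hv : v ∈ X
      · exact Or.inl ⟨v, hv, 0, r + 1, by omega, rfl, w, Or.inr h1, h2⟩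
      · rcases h3 with ⟨x, hx, i, j, hij, h4, h5⟩ | ⟨rfl, h3⟩ | ⟨h3, h4⟩
        · exact Or.inl ⟨x, hx, i + 1, j, by omega, ⟨w, Or.inr h1, h4⟩, h5⟩
        · exact Or.inr (Or.inr ⟨⟨hv, w, h3, h1⟩, ⟨h3, v, hv, h1.symm⟩⟩)
        · exact Or.inr (Or.inr ⟨⟨hv, w, h3.1, h1⟩, h4⟩)

/-- The same signature. -/
def Same (G : SimpleGraph V) (X : Set V) (r : ℕ) (s t : V) : Prop :=
  (s ∈ Mid G X ↔ t ∈ Mid G X) ∧ ∀ x ∈ X, ∀ j ≤ r, (Near G j s x ↔ Near G j t x)

/-- The exchange argument. -/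
theorem exchange {G : SimpleGraph V} {X : Set V} {r : ℕ} (hr : 3 ≤ r)
    (hM : ∀ u ∈ Mid G X, ∀ v ∈ Mid G X, Near G 3 u v) {v s t : V} (hv : ∃ y, G.Adj v y)
    (hst : Same G X r s t) (h : Near G r v s) : Near G r v t := by
  rcases near_cases (X := X) h with ⟨x, hx, i, j, hij, h1, h2⟩ | ⟨rfl, hvX⟩ | ⟨h1, h2⟩
  · have h3 := (hst.2 x hx j (by omega)).mp h2.symm
    exact (h1.trans h3.symm).mono hij
  · obtain ⟨y, hy⟩ := hv
    by_cases hyX : y ∈ X
    · have h3 := (hst.2 y hyX 1 (by omega)).mp (Near.one hy)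
      exact ((Near.one hy).trans h3.symm).mono (by omega)
    · have h3 : v ∈ Mid G X := ⟨hvX, y, hyX, hy⟩
      exact (hM v h3 t (hst.1.mp h3)).mono hr
  · exact (hM v h1 t (hst.1.mp h2)).mono hr

theorem mid_near {G : SimpleGraph V} {X K : Set V}
    (h3 : ∀ u v, u ∉ X → v ∉ X → u ∉ K → v ∉ K → ¬ G.Adj u v) {v : V} (hv : v ∈ Mid G X) :
    ∃ a ∈ K, v = a ∨ G.Adj v a := by
  obtain ⟨hv, w, hw, hvw⟩ := hv
  by_cases h : v ∈ K
  · exact ⟨v, h, Or.inl rfl⟩
  · by_cases hw' : w ∈ K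
    · exact ⟨w, hw', Or.inr hvw⟩
    · exact absurd hvw (h3 v w hv hw h hw')

/-- Every vertex of the clique is close to everything. -/
theorem near_clique {G : SimpleGraph V} {X K : Set V}
    (h2 : ∀ u ∈ K, ∀ v ∈ K, u ≠ v → G.Adj u v)
    (h3 : ∀ u v, u ∉ X → v ∉ X → u ∉ K → v ∉ K → ¬ G.Adj u v) {v a : V} (hv : v ∈ Mid G X)
    (ha : a ∈ K) : Near G 2 v a := by
  obtain ⟨b, hb, hvb⟩ := mid_near h3 hv
  refine ⟨b, hvb, a, ?_, rfl⟩
  by_cases h : b = a
  · exact Or.inl h
  · exact Or.inr (h2 b hb a ha h)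

theorem near_mid {G : SimpleGraph V} {X : Set V} (h : IsModulator G X) :
    ∀ u ∈ Mid G X, ∀ v ∈ Mid G X, Near G 3 u v := by
  rw [isModulator_iff] at h
  obtain ⟨K, h1, h2, h3⟩ := h
  intro u hu v hv
  obtain ⟨a, ha, hva⟩ := mid_near h3 hv
  have h4 := near_clique h2 h3 hu ha
  exact h4.trans (Near.one' (hva.imp Eq.symm SimpleGraph.Adj.symm))

end Q224.RD
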